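import Pool.Agent.H810R3.Tub.Compare

set_option autoImplicit false

/-! Continuous choices of the centres; lower semicontinuity of the moments. -/

open MeasureTheory Set Filter Topology ENNReal NNReal Metric

namespace Pool.Agent.X91.TT

open Pool.Agent.H810R3.Tub

variable {d : ℕ}

/-- The `p`-th moment. -/
noncomputable def FF {ι : Type} [Fintype ι] (p N : ℝ) (ω : ι → Vec d) (f : ι → Fin d → Space d)
    (a : ι → Space d) : ℝ≥0∞ := ∫⁻ y, Fb N ω f a y ^ p

theorem mem_box_iff {N : ℝ} {e : Space d} {f : Fin d → Space d} {a y : Space d} :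
    y ∈ box N e f a ↔ y - a ∈ box N e f 0 := by
  unfold box
  simp only [mem_ofPred_eq, sub_zero]

theorem convex_box (N : ℝ) (e : Space d) (f : Fin d → Space d) (a : Space d) :
    Convex ℝ (box N e f a) := by
  have key : ∀ (e : Space d) (c : ℝ), Convex ℝ {y : Space d | |inner ℝ e (y - a)| ≤ c} := by
    intro e c y hy z hz s t hs ht hst
    simp only [mem_ofPred_eq] at hy hz ⊢
    have e1 : s • y + t • z - a = s • (y - a) + t • (z - a) := by
      have : a = s • a + t • a := by rw [← add_smul, hst, one_smul]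
      conv_lhs => rw [this]
      rw [smul_sub, smul_sub]
      abel
    rw [e1, inner_add_right, inner_smul_right, inner_smul_right]
    calc |s * inner ℝ e (y - a) + t * inner ℝ e (z - a)|
        ≤ |s * inner ℝ e (y - a)| + |t * inner ℝ e (z - a)| := abs_add_le _ _
      _ = s * |inner ℝ e (y - a)| + t * |inner ℝ e (z - a)| := by
          rw [abs_mul, abs_mul, abs_of_nonneg hs, abs_of_nonneg ht]
      _ ≤ s * c + t * c := by gcongr
      _ = c := by rw [← add_mul, hst, one_mul]
  have h2 : box N e f a = {y : Space d | |inner ℝ e (y - a)| ≤ N ^ 2 / 2} ∩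
      ⋂ j, {y : Space d | |inner ℝ (f j) (y - a)| ≤ N / 2} := by
    ext y
    simp [box]
  rw [h2]
  exact (key _ _).inter (convex_iInter fun j => key _ _)

theorem ae_interior {ι : Type} [Fintype ι] (N : ℝ) (ω : ι → Vec d) (f : ι → Fin d → Space d)
    (a : ι → Space d) : ∀ᵐ y : Space d, ∀ i, y - a i ∈ box N (nor (ω i)) (f i) 0 →
      y - a i ∈ interior (box N (nor (ω i)) (f i) 0) := by
  rw [ae_all_iff]
  intro i
  have h1 : volume (frontier (box N (nor (ω i)) (f i) 0)) = 0 :=
    (convex_box _ _ _ _).addHaar_frontier _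
  have h2 : ∀ᵐ z : Space d, z ∉ frontier (box N (nor (ω i)) (f i) 0) := by
    rw [ae_iff]
    simpa using h1
  have h3 : ∀ᵐ y : Space d, y - a i ∉ frontier (box N (nor (ω i)) (f i) 0) :=
    (measurePreserving_sub_right volume (a i)).quasiMeasurePreserving.ae h2
  filter_upwards [h3] with y hy hm
  rw [frontier, (box_closed _ _ _ _).closure_eq] at hy
  by_contra hn
  exact hy ⟨hm, hn⟩

/-- Fatou. -/
theorem FF_seq {ι : Type} [Fintype ι] {p N : ℝ} (hp : 0 < p) (ω : ι → Vec d)
    (f : ι → Fin d → Space d) {a : ι → Space d} {s : ℕ → ι → Space d}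
    (hs : Tendsto s atTop (𝓝 a)) {c : ℝ≥0∞} (hc : ∀ k, FF p N ω f (s k) ≤ c) :
    FF p N ω f a ≤ c := by
  classical
  have h1 : ∀ᵐ y : Space d, Fb N ω f a y ^ p ≤ liminf (fun k => Fb N ω f (s k) y ^ p) atTop := by
    filter_upwards [ae_interior N ω f a] with y hy
    refine le_liminf_of_le ?_ ?_
    · isBoundedDefault
    have h2 : ∀ᶠ k in atTop, ∀ i, y - a i ∈ box N (nor (ω i)) (f i) 0 →
        y - s k i ∈ box N (nor (ω i)) (f i) 0 := by
      rw [eventually_all]
      intro i
      by_cases hi : y - a i ∈ box N (nor (ω i)) (f i) 0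
      · have h3 := mem_interior_iff_mem_nhds.1 (hy i hi)
        have h4 : Tendsto (fun k => y - s k i) atTop (𝓝 (y - a i)) :=
          tendsto_const_nhds.sub ((tendsto_pi_nhds.1 hs) i)
        filter_upwards [h4.eventually h3] with k hk _
        exact hk
      · exact Eventually.of_forall fun k h => absurd h hi
    filter_upwards [h2] with k hk
    apply ENNReal.rpow_le_rpow _ hp.le
    unfold Fb
    apply Finset.sum_le_sum
    intro i _
    by_cases hi : y ∈ box N (nor (ω i)) (f i) (a i)
    · have h3 : y ∈ box N (nor (ω i)) (f i) (s k i) := mem_box_iff.2 (hk i (mem_box_iff.1 hi))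
      rw [indicator_of_mem hi, indicator_of_mem h3]
    · rw [indicator_of_notMem hi]
      exact zero_le
  calc FF p N ω f a ≤ ∫⁻ y, liminf (fun k => Fb N ω f (s k) y ^ p) atTop := lintegral_mono_ae h1
    _ ≤ liminf (fun k => FF p N ω f (s k)) atTop :=
        lintegral_liminf_le fun k => (Fb_measurable N ω f (s k)).pow_const p
    _ ≤ c := by
        refine liminf_le_of_frequently_le' (Frequently.of_forall fun k => hc k)

theorem isOpen_FF {ι : Type} [Fintype ι] {p N : ℝ} (hp : 0 < p) (ω : ι → Vec d)
    (f : ι → Fin d → Space d) (c : ℝ≥0∞) : IsOpen {a : ι → Space d | c < FF p N ω f a} := by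
  rw [← isClosed_compl_iff]
  apply IsSeqClosed.isClosed
  intro s a hs hlim
  simp only [mem_compl_iff, mem_ofPred_eq, not_lt] at hs ⊢
  exact FF_seq hp ω f hlim hs

/-- Continuous families of centres. -/
abbrev Fam (d : ℕ) : Type := C(closedBall (0 : Vec d) 1, Space d)

open Classical in
/-- The value of the family at `v` (zero outside the unit ball). -/
noncomputable def ex (b : Fam d) (v : Vec d) : Space d :=
  if h : v ∈ closedBall (0 : Vec d) 1 then b ⟨v, h⟩ else 0

/-- The centres of the boxes: `N² b(ω i)`. -/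
noncomputable def pos {ι : Type} (N : ℝ) (b : Fam d) (ω : ι → Vec d) : ι → Space d :=
  fun i => N ^ 2 • ex b (ω i)

theorem ex_of_mem {b : Fam d} {v : Vec d} (h : v ∈ closedBall (0 : Vec d) 1) :
    ex b v = b ⟨v, h⟩ := by rw [ex, dif_pos h]

theorem dist_ex_le (b b' : Fam d) (v : Vec d) : dist (ex b v) (ex b' v) ≤ dist b b' := by
  by_cases h : v ∈ closedBall (0 : Vec d) 1
  · rw [ex_of_mem h, ex_of_mem h]
    exact ContinuousMap.dist_apply_le_dist _
  · rw [ex, ex, dif_neg h, dif_neg h, dist_self]
    exact dist_nonneg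

theorem continuous_pos {ι : Type} [Fintype ι] (N : ℝ) (ω : ι → Vec d) :
    Continuous fun b : Fam d => pos N b ω := by
  apply continuous_pi
  intro i
  have : LipschitzWith 1 fun b : Fam d => ex b (ω i) :=
    LipschitzWith.of_dist_le_mul fun b b' => by simpa using dist_ex_le b b' (ω i)
  exact this.continuous.const_smul (N ^ 2)

end Pool.Agent.X91.TT
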