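import Pool.Agent.X91.TT.Basic
import Pool.Agent.X91.TK.Fold

set_option autoImplicit false

/-! Displacement of a family of boxes into a neighbourhood of a continuous family of centres. -/

open MeasureTheory Set Filter Topology ENNReal NNReal Metric

namespace Pool.Agent.X91.TT

open Pool.Agent.H810R3.Tub
open Pool.Agent.X91.TK (la la_add fl norm_sub_fl abs_coord_le la_apply)

variable {d : ℕ}

/-- The dimension. -/
noncomputable def mm (d : ℕ) : ℕ := Module.finrank ℝ (Space d)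

/-- The coordinates. -/
noncomputable def rp (d : ℕ) : Space d ≃ₗᵢ[ℝ] EuclideanSpace ℝ (Fin (mm d)) :=
  (stdOrthonormalBasis ℝ (Space d)).repr

/-- The lattice vector. -/
noncomputable def LA (κ : Fin (mm d) → ℤ) : Space d := (rp d).symm (la κ)

/-- The integer part. -/
noncomputable def FL (x : Space d) : Fin (mm d) → ℤ := fl (rp d x)

theorem norm_sub_FL (x : Space d) : ‖x - LA (FL x)‖ ≤ mm d + 1 := by
  have h1 : ‖x - LA (FL x)‖ = ‖rp d x - la (fl (rp d x))‖ := by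
    rw [← (rp d).norm_map (x - LA (FL x)), map_sub, LA, LinearIsometryEquiv.apply_symm_apply]
    rfl
  rw [h1]
  exact norm_sub_fl _

/-- Lattice vectors with the same residues are far apart. -/
theorem LA_far {M : ℕ} {κ κ' : Fin (mm d) → ℤ} (hne : κ ≠ κ')
    (h : ∀ j, κ j % (M : ℤ) = κ' j % (M : ℤ)) : (M : ℝ) ≤ ‖LA κ - LA κ'‖ := by
  obtain ⟨j, hj⟩ := Function.ne_iff.1 hne
  have h1 : ‖LA κ - LA κ'‖ = ‖la κ - la κ'‖ := by
    rw [LA, LA, ← map_sub, LinearIsometryEquiv.norm_map]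
  rw [h1]
  refine le_trans ?_ (abs_coord_le (la κ - la κ') j)
  have h2 : (la κ - la κ') j = ((κ j - κ' j : ℤ) : ℝ) := by
    push_cast
    rfl
  rw [h2, ← Int.cast_abs]
  have h3 : (M : ℤ) ∣ κ j - κ' j := by
    have := h j
    exact Int.ModEq.dvd this.symm
  have h4 : (M : ℤ) ≤ |κ j - κ' j| := by
    apply Int.le_of_dvd (abs_pos.2 (sub_ne_zero.2 hj))
    exact (dvd_abs _ _).2 h3
  exact_mod_cast h4

theorem FL_finite (R : ℝ) : {κ : Fin (mm d) → ℤ | ∃ x : Space d, ‖x‖ ≤ R ∧ FL x = κ}.Finite := by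
  apply (Set.finite_Icc (fun _ : Fin (mm d) => -(⌈R⌉ + 1)) (fun _ => ⌈R⌉ + 1)).subset
  rintro κ ⟨x, hx, rfl⟩
  rw [mem_Icc]
  have h1 : ∀ j, |rp d x j| ≤ R := fun j =>
    (abs_coord_le _ j).trans (by rw [LinearIsometryEquiv.norm_map]; exact hx)
  constructor
  · intro j
    have h2 := (abs_le.1 (h1 j)).1
    show -(⌈R⌉ + 1) ≤ ⌊rp d x j⌋
    apply Int.le_floor.2
    push_cast
    have := Int.le_ceil R
    linarith
  · intro j
    have h2 := (abs_le.1 (h1 j)).2
    show ⌊rp d x j⌋ ≤ ⌈R⌉ + 1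
    have h3 : (⌊rp d x j⌋ : ℝ) ≤ (⌈R⌉ : ℝ) := (Int.floor_le _).trans (h2.trans (Int.le_ceil R))
    have h4 : ⌊rp d x j⌋ ≤ ⌈R⌉ := by exact_mod_cast h3
    omega

/-- Superadditivity of powers. -/
theorem sum_rpow_le {ι : Type*} (S : Finset ι) {p : ℝ} (hp : 1 ≤ p) (x : ι → ℝ≥0∞) :
    ∑ i ∈ S, x i ^ p ≤ (∑ i ∈ S, x i) ^ p := by
  classical
  induction S using Finset.induction_on with
  | empty => simp
  | insert i S hi ih =>
    rw [Finset.sum_insert hi, Finset.sum_insert hi]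
    calc x i ^ p + ∑ j ∈ S, x j ^ p ≤ x i ^ p + (∑ j ∈ S, x j) ^ p := by gcongr
      _ ≤ _ := ENNReal.add_rpow_le_rpow_add _ _ hp

/-- A sum with at most one nonzero term. -/
theorem rpow_sum_le_of_one {ι : Type*} (S : Finset ι) {p : ℝ} (hp : 1 ≤ p) (x : ι → ℝ≥0∞)
    (h : ∀ i ∈ S, ∀ j ∈ S, x i ≠ 0 → x j ≠ 0 → i = j) :
    (∑ i ∈ S, x i) ^ p ≤ ∑ i ∈ S, x i ^ p := by
  classical
  by_cases hz : ∃ i ∈ S, x i ≠ 0
  · obtain ⟨i, hi, hxi⟩ := hz
    have h1 : ∑ j ∈ S, x j = x i := by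
      apply Finset.sum_eq_single_of_mem i hi
      intro j hj hji
      by_contra hne
      exact hji (h j hj i hi hne hxi)
    rw [h1]
    exact Finset.single_le_sum (f := fun j => x j ^ p) (fun _ _ => zero_le) hi
  · push Not at hz
    rw [Finset.sum_eq_zero hz, ENNReal.zero_rpow_of_pos (by linarith)]
    exact zero_le

/-- Indicator of a box. -/
noncomputable def ib {ι : Type} (N : ℝ) (ω : ι → Vec d) (f : ι → Fin d → Space d)
    (i : ι) (a y : Space d) : ℝ≥0∞ :=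
  (box N (nor (ω i)) (f i) a).indicator (fun _ => (1 : ℝ≥0∞)) y

theorem ib_meas {ι : Type} (N : ℝ) (ω : ι → Vec d) (f : ι → Fin d → Space d) (i : ι)
    (a : Space d) : Measurable (ib N ω f i a) :=
  measurable_const.indicator (box_closed _ _ _ _).measurableSet

theorem ib_add {ι : Type} (N : ℝ) (ω : ι → Vec d) (f : ι → Fin d → Space d) (i : ι)
    (a t y : Space d) : ib N ω f i (a + t) (y + t) = ib N ω f i a y := by
  unfold ib
  by_cases h : y ∈ box N (nor (ω i)) (f i) a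
  · have h2 : y + t ∈ box N (nor (ω i)) (f i) (a + t) := by
      rw [mem_box_iff] at h ⊢
      rwa [add_sub_add_right_eq_sub]
    rw [indicator_of_mem h, indicator_of_mem h2]
  · have h2 : y + t ∉ box N (nor (ω i)) (f i) (a + t) := by
      rw [mem_box_iff] at h ⊢
      rwa [add_sub_add_right_eq_sub]
    rw [indicator_of_notMem h, indicator_of_notMem h2]

/-- Translating part of the boxes. -/
theorem translate {ι : Type} (S : Finset ι) {p : ℝ} (N : ℝ) (ω : ι → Vec d)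
    (f : ι → Fin d → Space d) (a : ι → Space d) (t : Space d) :
    ∫⁻ y, (∑ i ∈ S, ib N ω f i (a i + t) y) ^ p = ∫⁻ y, (∑ i ∈ S, ib N ω f i (a i) y) ^ p := by
  rw [← lintegral_add_right_eq_self (fun y => (∑ i ∈ S, ib N ω f i (a i + t) y) ^ p) t]
  simp only [ib_add]

/-- The centre is near the points of the box. -/
theorem near_of_ib {ι : Type} {N : ℝ} (hN : 1 ≤ N) {ω : ι → Vec d} {f : ι → Fin d → Space d}
    (hf : ∀ i, Orthonormal ℝ (Fin.cons (nor (ω i)) (f i) : Fin (d + 1) → Space d)) {i : ι}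
    {a y : Space d} (h : ib N ω f i a y ≠ 0) : ‖y - a‖ ≤ (1 + d) * N ^ 2 := by
  have h1 : y ∈ box N (nor (ω i)) (f i) a := by
    by_contra hn
    exact h (indicator_of_notMem hn _)
  have h2 := box_sub_ball hN (hf i) (mem_box_iff.1 h1)
  simpa using h2

end Pool.Agent.X91.TT
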