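import Pool.Agent.X91.TT.Disp

set_option autoImplicit false

/-! Displacement of a family of boxes into a neighbourhood of a continuous family of centres. -/

open MeasureTheory Set Filter Topology ENNReal NNReal Metric

namespace Pool.Agent.X91.TT

open Pool.Agent.H810R3.Tub
open Pool.Agent.X91.TK (la la_add fl norm_sub_fl abs_coord_le la_apply)

variable {d : ℕ}

theorem displace {g : Vec d → Space d} {R : ℝ} (hR : ∀ v, ‖g v‖ ≤ R) {η : ℝ} (hη : 0 < η) :
    ∃ G : ℕ, ∀ N : ℝ, 1 ≤ N → ∀ (ι : Type) [Fintype ι] (ω : ι → Vec d) (f : ι → Fin d → Space d),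
      (∀ i, Orthonormal ℝ (Fin.cons (nor (ω i)) (f i) : Fin (d + 1) → Space d)) →
      ∀ a : ι → Space d, ∃ β : ι → Space d, (∀ i, ‖β i - g (ω i)‖ ≤ η) ∧
        ∀ p : ℝ, 1 ≤ p → FF p N ω f a ≤ (G : ℝ≥0∞) ^ p * FF p N ω f (fun i => N ^ 2 • β i) := by
  classical
  set C₀ : ℝ := mm d + 1 with hC₀
  have hC₀p : 0 < C₀ := by rw [hC₀]; positivity
  set h : ℝ := η / (2 * C₀) with hh
  have hh0 : 0 < h := by positivity
  have hhC : h * C₀ = η / 2 := by rw [hh]; field_simp
  obtain ⟨M, hM⟩ : ∃ M : ℕ, 2 * (1 + (d : ℝ)) + η < M * h := by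
    obtain ⟨M, hM⟩ := exists_nat_gt ((2 * (1 + (d : ℝ)) + η) / h)
    exact ⟨M, by rwa [div_lt_iff₀ hh0] at hM⟩
  have hMpos : 0 < M := by
    rcases Nat.eq_zero_or_pos M with h0 | h0
    · exfalso
      rw [h0] at hM
      have : (0 : ℝ) ≤ d := Nat.cast_nonneg d
      simp only [Nat.cast_zero, zero_mul] at hM
      linarith
    · exact h0
  set T : Finset (Fin (mm d) → ℤ) := (FL_finite (d := d) (R / h)).toFinset with hT
  set CC : Finset ((Fin (mm d) → ℤ) × (Fin (mm d) → ℤ)) :=
    (Fintype.piFinset fun _ => Finset.Ico (0 : ℤ) M) ×ˢ T with hCC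
  refine ⟨CC.card, ?_⟩
  intro N hN ι _ ω f hf a
  have hN0 : 0 < N := by linarith
  have hN2 : 0 < N ^ 2 := by positivity
  set κ : ι → Fin (mm d) → ℤ := fun i => FL ((N ^ 2 * h)⁻¹ • a i) with hκ
  set κ₀ : ι → Fin (mm d) → ℤ := fun i => FL (h⁻¹ • g (ω i)) with hκ₀
  have hne : N ^ 2 * h ≠ 0 := by positivity
  have h1 : ∀ i, ‖a i - (N ^ 2 * h) • LA (κ i)‖ ≤ N ^ 2 * (η / 2) := by
    intro i
    have e1 : a i - (N ^ 2 * h) • LA (κ i) =
        (N ^ 2 * h) • ((N ^ 2 * h)⁻¹ • a i - LA (κ i)) := by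
      rw [smul_sub, smul_smul, mul_inv_cancel₀ hne, one_smul]
    rw [e1, norm_smul, Real.norm_of_nonneg (by positivity), ← hhC]
    calc N ^ 2 * h * ‖(N ^ 2 * h)⁻¹ • a i - LA (κ i)‖ ≤ N ^ 2 * h * C₀ := by
          gcongr
          exact norm_sub_FL _
      _ = N ^ 2 * (h * C₀) := by ring
  have h2 : ∀ i, ‖g (ω i) - h • LA (κ₀ i)‖ ≤ η / 2 := by
    intro i
    have e1 : g (ω i) - h • LA (κ₀ i) = h • (h⁻¹ • g (ω i) - LA (κ₀ i)) := by
      rw [smul_sub, smul_smul, mul_inv_cancel₀ hh0.ne', one_smul]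
    rw [e1, norm_smul, Real.norm_of_nonneg hh0.le, ← hhC]
    gcongr
    exact norm_sub_FL _
  set β : ι → Space d := fun i => (N ^ 2)⁻¹ • a i - h • LA (κ i) + h • LA (κ₀ i) with hβ
  have hβN : ∀ i, N ^ 2 • β i = a i + (N ^ 2 * h) • (LA (κ₀ i) - LA (κ i)) := by
    intro i
    rw [hβ]
    simp only [smul_add, smul_sub, smul_smul]
    rw [mul_inv_cancel₀ hN2.ne', one_smul]
    abel
  refine ⟨β, ?_, ?_⟩
  · intro i
    have e1 : β i - g (ω i) = (N ^ 2)⁻¹ • (a i - (N ^ 2 * h) • LA (κ i)) -
        (g (ω i) - h • LA (κ₀ i)) := by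
      rw [hβ]
      simp only [smul_sub, smul_smul]
      rw [← mul_assoc, inv_mul_cancel₀ hN2.ne', one_mul]
      abel
    rw [e1]
    refine (norm_sub_le _ _).trans ?_
    have h3 : ‖(N ^ 2)⁻¹ • (a i - (N ^ 2 * h) • LA (κ i))‖ ≤ η / 2 := by
      rw [norm_smul, norm_inv, Real.norm_of_nonneg hN2.le, inv_mul_le_iff₀ hN2]
      exact h1 i
    linarith [h2 i]
  · intro p hp
    have hp0 : 0 < p := by linarith
    set col : ι → (Fin (mm d) → ℤ) × (Fin (mm d) → ℤ) :=
      fun i => (fun j => κ i j % (M : ℤ), κ₀ i) with hcol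
    have hMZ : (M : ℤ) ≠ 0 := by exact_mod_cast hMpos.ne'
    have hMZ0 : (0 : ℤ) < M := by exact_mod_cast hMpos
    have hcolmem : ∀ i ∈ (Finset.univ : Finset ι), col i ∈ CC := by
      intro i _
      rw [hCC, Finset.mem_product]
      constructor
      · rw [Fintype.mem_piFinset]
        intro j
        rw [Finset.mem_Ico]
        exact ⟨Int.emod_nonneg _ hMZ, Int.emod_lt_of_pos _ hMZ0⟩
      · rw [hT, Set.Finite.mem_toFinset]
        refine ⟨h⁻¹ • g (ω i), ?_, rfl⟩
        rw [norm_smul, norm_inv, Real.norm_of_nonneg hh0.le, inv_mul_eq_div]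
        have := hR (ω i)
        gcongr
    -- one colour
    have hone : ∀ c ∈ CC, ∫⁻ y, (∑ i ∈ Finset.univ.filter (fun i => col i = c),
        ib N ω f i (a i) y) ^ p ≤ FF p N ω f (fun i => N ^ 2 • β i) := by
      intro c _
      set S : Finset ι := Finset.univ.filter (fun i => col i = c) with hS
      set K : Finset (Fin (mm d) → ℤ) := S.image κ with hK
      set X : (Fin (mm d) → ℤ) → Space d → ℝ≥0∞ := fun k y =>
        ∑ i ∈ S.filter (fun i => κ i = k), ib N ω f i (a i) y with hX
      set X' : (Fin (mm d) → ℤ) → Space d → ℝ≥0∞ := fun k y =>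
        ∑ i ∈ S.filter (fun i => κ i = k), ib N ω f i (N ^ 2 • β i) y with hX'
      have hsum : ∀ y, ∑ i ∈ S, ib N ω f i (a i) y = ∑ k ∈ K, X k y := by
        intro y
        exact (Finset.sum_fiberwise_of_maps_to (fun i hi => Finset.mem_image_of_mem κ hi)
          (fun i => ib N ω f i (a i) y)).symm
      have hsum' : ∀ y, ∑ i ∈ S, ib N ω f i (N ^ 2 • β i) y = ∑ k ∈ K, X' k y := by
        intro y
        exact (Finset.sum_fiberwise_of_maps_to (fun i hi => Finset.mem_image_of_mem κ hi)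
          (fun i => ib N ω f i (N ^ 2 • β i) y)).symm
      have hXm : ∀ k, Measurable (X k) := fun k =>
        Finset.measurable_fun_sum _ fun i _ => ib_meas N ω f i (a i)
      have hXm' : ∀ k, Measurable (X' k) := fun k =>
        Finset.measurable_fun_sum _ fun i _ => ib_meas N ω f i (N ^ 2 • β i)
      -- each point is in at most one cluster
      have hdisj : ∀ y, ∀ k ∈ K, ∀ k' ∈ K, X k y ≠ 0 → X k' y ≠ 0 → k = k' := by
        intro y k _ k' _ hk hk'
        obtain ⟨i, hi, hi'⟩ := Finset.exists_ne_zero_of_sum_ne_zero hk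
        obtain ⟨j, hj, hj'⟩ := Finset.exists_ne_zero_of_sum_ne_zero hk'
        rw [Finset.mem_filter] at hi hj
        rw [hS, Finset.mem_filter] at hi hj
        have n1 := near_of_ib hN hf hi'
        have n2 := near_of_ib hN hf hj'
        by_contra hkk
        have hres : ∀ l, k l % (M : ℤ) = k' l % (M : ℤ) := by
          intro l
          have e1 : col i = col j := by rw [hi.1.2, hj.1.2]
          have e2 := congrFun (congrArg Prod.fst e1) l
          simp only [hcol] at e2
          rw [← hi.2, ← hj.2]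
          exact e2
        have hfar := LA_far hkk hres
        have a1 := h1 i
        have a2 := h1 j
        rw [hi.2] at a1
        rw [hj.2] at a2
        have e3 : (N ^ 2 * h) • (LA k - LA k') =
            ((y - a j) - (y - a i)) - (a i - (N ^ 2 * h) • LA k) + (a j - (N ^ 2 * h) • LA k') := by
          rw [smul_sub]
          abel
        have e4 : ‖(N ^ 2 * h) • (LA k - LA k')‖ ≤ N ^ 2 * (2 * (1 + d) + η) := by
          rw [e3]
          calc _ ≤ ‖(y - a j) - (y - a i) - (a i - (N ^ 2 * h) • LA k)‖ +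
                ‖a j - (N ^ 2 * h) • LA k'‖ := norm_add_le _ _
            _ ≤ ‖(y - a j) - (y - a i)‖ + ‖a i - (N ^ 2 * h) • LA k‖ +
                ‖a j - (N ^ 2 * h) • LA k'‖ := by
                gcongr
                exact norm_sub_le _ _
            _ ≤ ‖y - a j‖ + ‖y - a i‖ + ‖a i - (N ^ 2 * h) • LA k‖ +
                ‖a j - (N ^ 2 * h) • LA k'‖ := by
                gcongr
                exact norm_sub_le _ _
            _ ≤ N ^ 2 * (2 * (1 + d) + η) := by nlinarith
        rw [norm_smul, Real.norm_of_nonneg (by positivity)] at e4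
        have e5 : N ^ 2 * (M * h) ≤ N ^ 2 * h * ‖LA k - LA k'‖ := by
          calc N ^ 2 * (M * h) = N ^ 2 * h * M := by ring
            _ ≤ _ := by gcongr
        have e6 : N ^ 2 * (2 * (1 + d) + η) < N ^ 2 * (M * h) := by gcongr
        linarith
      calc ∫⁻ y, (∑ i ∈ S, ib N ω f i (a i) y) ^ p = ∫⁻ y, (∑ k ∈ K, X k y) ^ p := by
            simp only [hsum]
        _ ≤ ∫⁻ y, ∑ k ∈ K, X k y ^ p :=
            lintegral_mono fun y => rpow_sum_le_of_one K hp (fun k => X k y) (hdisj y)
        _ = ∑ k ∈ K, ∫⁻ y, X k y ^ p :=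
            lintegral_finsetSum _ (fun k _ => (hXm k).pow_const _)
        _ = ∑ k ∈ K, ∫⁻ y, X' k y ^ p := by
            refine Finset.sum_congr rfl fun k _ => ?_
            rw [hX, hX']
            simp only
            rw [← translate (S.filter (fun i => κ i = k)) N ω f a
              ((N ^ 2 * h) • (LA c.2 - LA k))]
            refine lintegral_congr fun y => ?_
            congr 1
            refine Finset.sum_congr rfl fun i hi => ?_
            rw [Finset.mem_filter, hS, Finset.mem_filter] at hi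
            rw [hβN i, hi.2]
            have e1 : κ₀ i = c.2 := by
              have := congrArg Prod.snd hi.1.2
              exact this
            rw [e1]
        _ = ∫⁻ y, ∑ k ∈ K, X' k y ^ p :=
            (lintegral_finsetSum _ (fun k _ => (hXm' k).pow_const _)).symm
        _ ≤ ∫⁻ y, (∑ k ∈ K, X' k y) ^ p :=
            lintegral_mono fun y => sum_rpow_le K hp (fun k => X' k y)
        _ = ∫⁻ y, (∑ i ∈ S, ib N ω f i (N ^ 2 • β i) y) ^ p := by simp only [hsum']
        _ ≤ FF p N ω f (fun i => N ^ 2 • β i) := by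
            refine lintegral_mono fun y => ENNReal.rpow_le_rpow ?_ hp0.le
            exact Finset.sum_le_sum_of_subset (Finset.subset_univ _)
    have hall : ∀ y, Fb N ω f a y = ∑ c ∈ CC, ∑ i ∈ Finset.univ.filter (fun i => col i = c),
        ib N ω f i (a i) y := by
      intro y
      exact (Finset.sum_fiberwise_of_maps_to hcolmem (fun i => ib N ω f i (a i) y)).symm
    calc FF p N ω f a = ∫⁻ y, (∑ c ∈ CC, ∑ i ∈ Finset.univ.filter (fun i => col i = c),
          ib N ω f i (a i) y) ^ p := by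
          unfold FF
          simp only [hall]
      _ ≤ ∫⁻ y, (CC.card : ℝ≥0∞) ^ (p - 1) * ∑ c ∈ CC,
            (∑ i ∈ Finset.univ.filter (fun i => col i = c), ib N ω f i (a i) y) ^ p :=
          lintegral_mono fun y => ENNReal.rpow_sum_le_const_mul_sum_rpow CC _ hp
      _ = (CC.card : ℝ≥0∞) ^ (p - 1) * ∑ c ∈ CC, ∫⁻ y,
            (∑ i ∈ Finset.univ.filter (fun i => col i = c), ib N ω f i (a i) y) ^ p := by
          rw [lintegral_const_mul' _ _ (ENNReal.rpow_ne_top_of_nonneg (by linarith)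
            (ENNReal.natCast_ne_top _)), lintegral_finsetSum _ (fun c _ =>
            (Finset.measurable_fun_sum _ fun i _ => ib_meas N ω f i (a i)).pow_const _)]
      _ ≤ (CC.card : ℝ≥0∞) ^ (p - 1) * ∑ _c ∈ CC, FF p N ω f (fun i => N ^ 2 • β i) := by
          gcongr with c hc
          exact hone c hc
      _ = (CC.card : ℝ≥0∞) ^ p * FF p N ω f (fun i => N ^ 2 • β i) := by
          rw [Finset.sum_const, nsmul_eq_mul, ← mul_assoc]
          congr 1
          rcases Nat.eq_zero_or_pos CC.card with h0 | h0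
          · rw [h0]
            simp only [Nat.cast_zero, mul_zero]
            rw [ENNReal.zero_rpow_of_pos hp0]
          · have hc0 : (CC.card : ℝ≥0∞) ≠ 0 := by exact_mod_cast h0.ne'
            conv_rhs => rw [show p = (p - 1) + 1 by ring]
            rw [ENNReal.rpow_add _ _ hc0 (ENNReal.natCast_ne_top _), ENNReal.rpow_one]

end Pool.Agent.X91.TT
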