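import Pool.Agent.X91.TT.Good

set_option autoImplicit false

/-! Good scales and powers. -/

open MeasureTheory Set Filter Topology ENNReal NNReal Metric

namespace Pool.Agent.X91.TT

open Pool.Agent.H810R3.Tub

variable {d : ℕ}

/-- The case of the supremum norm. -/
theorem ineq_top {ι : Type} [Fintype ι] {N C : ℝ} (hN : 1 ≤ N) (hC : 1 ≤ C) {ω : ι → Vec d}
    {f : ι → Fin d → Space d}
    (hf : ∀ i, Orthonormal ℝ (Fin.cons (nor (ω i)) (f i) : Fin (d + 1) → Space d))
    (a : ι → Space d) : Ineq C N ∞ ω f a := by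
  unfold Ineq
  rw [eLpNorm_exponent_top, eLpNorm_exponent_top]
  have hball : ∀ y ∈ ball (0 : Space d) (N / 2), Fb N ω f 0 y = (Fintype.card ι : ℝ≥0∞) := by
    intro y hy
    unfold Fb
    have : ∀ i, (box N (nor (ω i)) (f i) ((0 : ι → Space d) i)).indicator
        (fun _ => (1 : ℝ≥0∞)) y = 1 := fun i => indicator_of_mem (ball_sub_box hN (hf i) hy) _
    rw [Finset.sum_congr rfl fun i _ => this i]
    simp
  have h1 : eLpNormEssSup (boxSum N ω f a) volume ≤ (Fintype.card ι : ℝ≥0∞) := by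
    unfold eLpNormEssSup
    refine essSup_le_of_ae_le _ (Filter.Eventually.of_forall fun y => ?_)
    show ‖boxSum N ω f a y‖ₑ ≤ _
    unfold boxSum
    rw [enorm_sum_box]
    exact Fb_le N ω f a y
  have h2 : (Fintype.card ι : ℝ≥0∞) ≤ eLpNormEssSup (boxSum N ω f 0) volume := by
    have h3 := ae_le_eLpNormEssSup (f := boxSum N ω f 0) (μ := volume)
    have h4 : volume (ball (0 : Space d) (N / 2)) ≠ 0 :=
      (measure_ball_pos _ _ (by positivity)).ne'
    obtain ⟨y, hy1, hy2⟩ : ∃ y ∈ ball (0 : Space d) (N / 2), ‖boxSum N ω f 0 y‖ₑ ≤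
        eLpNormEssSup (boxSum N ω f 0) volume := by
      by_contra hcon
      push Not at hcon
      apply h4
      refine measure_mono_null ?_ (ae_iff.1 h3)
      intro y hy
      exact not_le.2 (hcon y hy)
    have h5 : ‖boxSum N ω f 0 y‖ₑ = Fb N ω f 0 y := enorm_sum_box N ω f 0 y
    rw [h5, hball y hy1] at hy2
    exact hy2
  have h6 : (1 : ℝ≥0∞) ≤ ENNReal.ofReal C := by
    rw [← ENNReal.ofReal_one]
    exact ENNReal.ofReal_le_ofReal hC
  calc _ ≤ 1 * (Fintype.card ι : ℝ≥0∞) := by rw [one_mul]; exact h1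
    _ ≤ _ := mul_le_mul' h6 h2

/-- The inequality with the constant `C` at scale `N`, for all caps and all exponents. -/
def GoodAt (σ κ C N : ℝ) (b : Fam d) : Prop :=
  ∀ (ι : Type) [Fintype ι] (ω : ι → Vec d) (f : ι → Fin d → Space d), Caps σ κ N ω f →
    ∀ p : ℝ≥0∞, 1 ≤ p → Ineq C N p ω f (pos N b ω)

theorem Ineq.mono {ι : Type} [Fintype ι] {N C C' : ℝ} {p : ℝ≥0∞} {ω : ι → Vec d}
    {f : ι → Fin d → Space d} {a : ι → Space d} (h : Ineq C N p ω f a) (hC : C ≤ C') :
    Ineq C' N p ω f a :=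
  h.trans (mul_le_mul' (ENNReal.ofReal_le_ofReal hC) le_rfl)

/-- **Good scales.** -/
theorem good_scales (hd : 1 ≤ d) {σ κ : ℝ} (hσ : 0 < σ) (hκ : 0 < κ) {h : ℝ → ℝ}
    (hh : Tendsto h atTop atTop) :
    ∀ᶠ b in residual (Fam d), ∃ᶠ N in atTop, GoodAt σ κ (h N) N b := by
  set V : ℕ → Set (Fam d) := fun m => {b | ∃ N : ℝ, (m : ℝ) ≤ N ∧
    b ∈ interior {b | GoodAt σ κ (h N) N b}} with hV
  have hopen : ∀ m, IsOpen (V m) := by
    intro m
    rw [isOpen_iff_forall_mem_open]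
    rintro b ⟨N, hN, hb⟩
    exact ⟨interior {b | GoodAt σ κ (h N) N b}, fun b' hb' => ⟨N, hN, hb'⟩, isOpen_interior, hb⟩
  have hdense : ∀ m, Dense (V m) := by
    intro m
    rw [Metric.dense_iff]
    intro b₀ ε hε
    obtain ⟨C, hC1, hC⟩ := step hd hσ hκ b₀ (half_pos hε)
    obtain ⟨N, hNC, hNm⟩ := ((hh.eventually (eventually_ge_atTop C)).and
      (eventually_ge_atTop (max 1 (m : ℝ)))).exists
    have hN1 : 1 ≤ N := (le_max_left _ _).trans hNm
    have hNm' : (m : ℝ) ≤ N := (le_max_right _ _).trans hNm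
    have hN0 : 0 < N := by linarith
    obtain ⟨b₁, hb₁, hg⟩ := hC N hN1
    refine ⟨b₁, ?_, N, hNm', ?_⟩
    · rw [mem_ball]
      exact hb₁.trans_lt (half_lt_self hε)
    · rw [mem_interior]
      refine ⟨ball b₁ (1 / (2 * N)), ?_, isOpen_ball, mem_ball_self (by positivity)⟩
      intro b hb ι _ ω f hc p hp
      rw [mem_ball] at hb
      rcases eq_or_ne p ∞ with rfl | hpt
      · exact ineq_top hN1 (hC1.trans hNC) hc.2.2.2 _
      · have hp' : 1 ≤ p.toReal := by
          rw [← ENNReal.toReal_one]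
          exact ENNReal.toReal_mono hpt hp
        have h1 := (ineq_iff hp' ω f (pos N b ω)).2 (hg b hb.le ι ω f hc p.toReal hp')
        rw [ENNReal.ofReal_toReal hpt] at h1
        exact h1.mono hNC
  have hall : ∀ᶠ b in residual (Fam d), ∀ m, b ∈ V m := by
    rw [eventually_countable_forall]
    intro m
    exact residual_of_dense_open (hopen m) (hdense m)
  filter_upwards [hall] with b hb
  rw [Filter.frequently_atTop]
  intro A
  obtain ⟨m, hm⟩ := exists_nat_ge A
  obtain ⟨N, hN, hb'⟩ := hb m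
  exact ⟨N, hm.trans hN, interior_subset hb'⟩

/-- The power `N ^ s`. -/
noncomputable def pw (s : ℝ) : ℝ → ℝ := fun N => N ^ s

theorem uniform_mono {σ κ s t : ℝ} {P : Set ℝ} (hst : s ≤ t) (h : Uniform d σ κ (pw s) P) :
    Uniform d σ κ (pw t) P := by
  obtain ⟨C, hC, h⟩ := h
  refine ⟨C, hC, fun N hN ι _ ω f hc a p hp => (h N hN ι ω f hc a p hp).mono ?_⟩
  have : pw s N ≤ pw t N := Real.rpow_le_rpow_of_exponent_le hN hst
  gcongr

theorem bound_mono {σ κ s t : ℝ} {P : Set ℝ} {b : Fam d} (hst : s ≤ t)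
    (h : BoundFor σ κ (pw s) P b) : BoundFor σ κ (pw t) P b := by
  obtain ⟨C, hC, h⟩ := h
  refine ⟨C, hC, fun N hN ι _ ω f hc p hp => (h N hN ι ω f hc p hp).mono ?_⟩
  have : pw s N ≤ pw t N := Real.rpow_le_rpow_of_exponent_le hN hst
  gcongr

/-- Typical families are universal for power losses. -/
theorem powers {σ κ : ℝ} (hσ : 0 < σ) {P : Set ℝ} (hP : ∀ p ∈ P, 1 ≤ p) :
    ∀ᶠ b in residual (Fam d), ∀ s : ℝ, (∀ ε : ℝ, 0 < ε → BoundFor σ κ (pw (s + ε)) P b) ↔
      ∀ ε : ℝ, 0 < ε → Uniform d σ κ (pw (s + ε)) P := by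
  have hq : ∀ᶠ b in residual (Fam d), ∀ q : ℚ, ¬ Uniform d σ κ (pw q) P →
      ¬ BoundFor σ κ (pw q) P b := by
    rw [eventually_countable_forall]
    intro q
    by_cases h : Uniform d σ κ (pw q) P
    · exact Eventually.of_forall fun b h' => absurd h h'
    · filter_upwards [zero_one hσ hP h] with b hb _
      exact hb
  filter_upwards [hq] with b hb s
  constructor
  · intro h ε hε
    by_contra hU
    obtain ⟨q, hq1, hq2⟩ := exists_rat_btwn (show s < s + ε by linarith)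
    have h1 : ¬ Uniform d σ κ (pw q) P := fun h' => hU (uniform_mono hq2.le h')
    apply hb q h1
    have h2 := h (q - s) (by linarith)
    rwa [add_sub_cancel] at h2
  · intro h ε hε
    exact (law hσ hP).1.1 (h ε hε) b

end Pool.Agent.X91.TT
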