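import Pool.Agent.X91.TT.Stair

set_option autoImplicit false

/-! Good scales. -/

open MeasureTheory Set Filter Topology ENNReal NNReal Metric

namespace Pool.Agent.X91.TT

open Pool.Agent.H810R3.Tub
open Pool.Agent.X91.TK (norm_le_of_coord abs_coord_le)

variable {d : ℕ}

/-- A box whose centre is within `N / 2` of `c` is in the dilate by the factor two of the box at the
origin, translated by `c`. -/
theorem ib_dilate {ι : Type} {N : ℝ} (hN : 1 ≤ N) {ω : ι → Vec d} {f : ι → Fin d → Space d}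
    (hf : ∀ i, Orthonormal ℝ (Fin.cons (nor (ω i)) (f i) : Fin (d + 1) → Space d)) {i : ι}
    {a c : Space d} (hac : ‖a - c‖ ≤ N / 2) (y : Space d) :
    ib N ω f i a y ≤ ib N ω f i 0 ((2 : ℝ)⁻¹ • (y - c)) := by
  unfold ib
  by_cases h : y ∈ box N (nor (ω i)) (f i) a
  · have h2 : (2 : ℝ)⁻¹ • (y - c) ∈ box N (nor (ω i)) (f i) 0 := by
      have key : ∀ (e : Space d) (t : ℝ), ‖e‖ = 1 → |inner ℝ e (y - a)| ≤ t →
          |inner ℝ e ((2 : ℝ)⁻¹ • (y - c) - 0)| ≤ (t + N / 2) / 2 := by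
        intro e t he ht
        rw [sub_zero, inner_smul_right, abs_mul, abs_of_pos (by norm_num : (0 : ℝ) < 2⁻¹)]
        have e1 : y - c = (y - a) + (a - c) := by abel
        rw [e1, inner_add_right]
        have h3 := abs_real_inner_le_norm e (a - c)
        rw [he, one_mul] at h3
        have h4 := abs_add_le (inner ℝ e (y - a)) (inner ℝ e (a - c))
        linarith
      have hfj : ∀ j, ‖f i j‖ = 1 := by
        intro j
        have := (hf i).1 j.succ
        simpa using this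
      constructor
      · refine (key _ _ (norm_e (hf i)) h.1).trans ?_
        nlinarith
      · intro j
        refine (key _ _ (hfj j) (h.2 j)).trans ?_
        linarith
    rw [indicator_of_mem h, indicator_of_mem h2]
  · rw [indicator_of_notMem h]
    exact zero_le

theorem mm_eq : Module.finrank ℝ (Space d) = d + 1 := finrank_space

/-- One cluster. -/
theorem cluster {ι : Type} [Fintype ι] {p N : ℝ} (hp : 0 < p) (hN : 1 ≤ N) {ω : ι → Vec d}
    {f : ι → Fin d → Space d}
    (hf : ∀ i, Orthonormal ℝ (Fin.cons (nor (ω i)) (f i) : Fin (d + 1) → Space d))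
    (S : Finset ι) (a : ι → Space d) (c : Space d) (hS : ∀ i ∈ S, ‖a i - c‖ ≤ N / 2) :
    ∫⁻ y, (∑ i ∈ S, ib N ω f i (a i) y) ^ p ≤ 2 ^ (d + 1) * FF p N ω f 0 := by
  have h1 : ∀ y, ∑ i ∈ S, ib N ω f i (a i) y ≤ Fb N ω f 0 ((2 : ℝ)⁻¹ • (y - c)) := by
    intro y
    calc ∑ i ∈ S, ib N ω f i (a i) y ≤ ∑ i ∈ S, ib N ω f i 0 ((2 : ℝ)⁻¹ • (y - c)) :=
          Finset.sum_le_sum fun i hi => ib_dilate hN hf (hS i hi) y
      _ ≤ ∑ i, ib N ω f i 0 ((2 : ℝ)⁻¹ • (y - c)) :=
          Finset.sum_le_sum_of_subset (Finset.subset_univ _)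
      _ = _ := rfl
  calc ∫⁻ y, (∑ i ∈ S, ib N ω f i (a i) y) ^ p
      ≤ ∫⁻ y, Fb N ω f 0 ((2 : ℝ)⁻¹ • (y - c)) ^ p :=
        lintegral_mono fun y => ENNReal.rpow_le_rpow (h1 y) hp.le
    _ = ∫⁻ y, Fb N ω f 0 ((2 : ℝ)⁻¹ • y) ^ p :=
        lintegral_sub_right_eq_self (fun y => Fb N ω f 0 ((2 : ℝ)⁻¹ • y) ^ p) c
    _ = 2 ^ (d + 1) * FF p N ω f 0 := by
        rw [lint_smul volume (by norm_num : ((2 : ℝ)⁻¹) ≠ 0) (fun y => Fb N ω f 0 y ^ p), mm_eq]
        congr 1
        rw [← inv_pow, inv_inv, abs_of_pos (by positivity), ENNReal.ofReal_pow (by norm_num)]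
        norm_num

/-- Few boxes. -/
theorem few {ι : Type} [Fintype ι] {p N : ℝ} (hp : 1 ≤ p) (hN : 1 ≤ N) {ω : ι → Vec d}
    {f : ι → Fin d → Space d}
    (hf : ∀ i, Orthonormal ℝ (Fin.cons (nor (ω i)) (f i) : Fin (d + 1) → Space d))
    (S : Finset ι) (a : ι → Space d) :
    ∫⁻ y, (∑ i ∈ S, ib N ω f i (a i) y) ^ p ≤ ENNReal.ofReal ((S.card : ℝ) ^ p * N ^ (d + 2)) := by
  have hp0 : 0 < p := by linarith
  have hN0 : 0 < N := by linarith
  calc ∫⁻ y, (∑ i ∈ S, ib N ω f i (a i) y) ^ p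
      ≤ ∫⁻ y, (S.card : ℝ≥0∞) ^ (p - 1) * ∑ i ∈ S, ib N ω f i (a i) y ^ p :=
        lintegral_mono fun y => ENNReal.rpow_sum_le_const_mul_sum_rpow S _ hp
    _ = (S.card : ℝ≥0∞) ^ (p - 1) * ∑ i ∈ S, ∫⁻ y, ib N ω f i (a i) y ^ p := by
        rw [lintegral_const_mul' _ _ (ENNReal.rpow_ne_top_of_nonneg (by linarith)
          (ENNReal.natCast_ne_top _)), lintegral_finsetSum _ (fun i _ =>
          (ib_meas N ω f i (a i)).pow_const _)]
    _ = (S.card : ℝ≥0∞) ^ (p - 1) * ∑ _i ∈ S, ENNReal.ofReal (N ^ (d + 2)) := by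
        congr 1
        refine Finset.sum_congr rfl fun i _ => ?_
        have h1 : ∀ y, ib N ω f i (a i) y ^ p = ib N ω f i (a i) y := by
          intro y
          unfold ib
          by_cases h : y ∈ box N (nor (ω i)) (f i) (a i)
          · rw [indicator_of_mem h, ENNReal.one_rpow]
          · rw [indicator_of_notMem h, ENNReal.zero_rpow_of_pos hp0]
        simp only [h1]
        unfold ib
        rw [lintegral_indicator (box_closed _ _ _ _).measurableSet, setLIntegral_const, one_mul]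
        exact vol_box hN (hf i) (a i)
    _ = ENNReal.ofReal ((S.card : ℝ) ^ p * N ^ (d + 2)) := by
        rw [Finset.sum_const, nsmul_eq_mul, ← mul_assoc]
        rcases Nat.eq_zero_or_pos S.card with h0 | h0
        · rw [h0]
          simp [Real.zero_rpow hp0.ne']
        · have hc0 : (S.card : ℝ≥0∞) ≠ 0 := by exact_mod_cast h0.ne'
          have hc0' : (0 : ℝ) < S.card := by exact_mod_cast h0
          rw [ENNReal.ofReal_mul (by positivity), ← ENNReal.ofReal_rpow_of_pos hc0',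
            ENNReal.ofReal_natCast]
          congr 1
          conv_rhs => rw [show p = (p - 1) + 1 by ring]
          rw [ENNReal.rpow_add _ _ hc0 (ENNReal.natCast_ne_top _), ENNReal.rpow_one]

/-- Lower bound for the centred family. -/
theorem centred_ge {ι : Type} [Fintype ι] {p N : ℝ} (hp : 0 < p) (hN : 1 ≤ N) {ω : ι → Vec d}
    {f : ι → Fin d → Space d}
    (hf : ∀ i, Orthonormal ℝ (Fin.cons (nor (ω i)) (f i) : Fin (d + 1) → Space d)) :
    ENNReal.ofReal ((Fintype.card ι : ℝ) ^ p * ((N / 2) ^ (d + 1) * wv d)) ≤ FF p N ω f 0 := by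
  have hwe : volume (ball (0 : Space d) 1) = ENNReal.ofReal (wv d) := by
    rw [wv, ENNReal.ofReal_toReal measure_ball_lt_top.ne]
  have hbv : volume (ball (0 : Space d) (N / 2)) = ENNReal.ofReal ((N / 2) ^ (d + 1) * wv d) := by
    rw [Measure.addHaar_ball_of_pos _ _ (by positivity), finrank_space, hwe,
      ← ENNReal.ofReal_mul (by positivity)]
  have hball : ∀ y ∈ ball (0 : Space d) (N / 2), Fb N ω f 0 y = (Fintype.card ι : ℝ≥0∞) := by
    intro y hy
    unfold Fb
    have : ∀ i, (box N (nor (ω i)) (f i) ((0 : ι → Space d) i)).indicator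
        (fun _ => (1 : ℝ≥0∞)) y = 1 := fun i => indicator_of_mem (ball_sub_box hN (hf i) hy) _
    rw [Finset.sum_congr rfl fun i _ => this i]
    simp
  calc ENNReal.ofReal ((Fintype.card ι : ℝ) ^ p * ((N / 2) ^ (d + 1) * wv d))
      = (Fintype.card ι : ℝ≥0∞) ^ p * volume (ball (0 : Space d) (N / 2)) := by
        rw [ENNReal.ofReal_mul (by positivity), hbv,
          ← ENNReal.ofReal_rpow_of_nonneg (Nat.cast_nonneg _) hp.le, ENNReal.ofReal_natCast]
    _ = ∫⁻ _y in ball (0 : Space d) (N / 2), (Fintype.card ι : ℝ≥0∞) ^ p := by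
        rw [setLIntegral_const]
    _ = ∫⁻ y in ball (0 : Space d) (N / 2), Fb N ω f 0 y ^ p := by
        apply setLIntegral_congr_fun measurableSet_ball
        intro y hy
        simp only
        rw [hball y hy]
    _ ≤ FF p N ω f 0 := setLIntegral_le_lintegral _ _

/-- The projection to the ball. -/
noncomputable def pr (v : Vec d) : Vec d := (max 1 ‖v‖)⁻¹ • v

theorem pr_mem (v : Vec d) : pr v ∈ closedBall (0 : Vec d) 1 := by
  rw [mem_closedBall_zero_iff, pr, norm_smul, norm_inv,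
    Real.norm_of_nonneg (le_trans zero_le_one (le_max_left _ _)),
    inv_mul_le_iff₀ (lt_of_lt_of_le one_pos (le_max_left _ _)), mul_one]
  exact le_max_right _ _

theorem pr_of_mem {v : Vec d} (hv : ‖v‖ ≤ 1) : pr v = v := by
  rw [pr, max_eq_left hv, inv_one, one_smul]

theorem pr_cont : Continuous (pr : Vec d → Vec d) := by
  have h1 : Continuous fun v : Vec d => (max 1 ‖v‖)⁻¹ := by
    apply Continuous.inv₀ (by fun_prop)
    intro v
    exact (lt_of_lt_of_le one_pos (le_max_left _ _)).ne'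
  unfold pr
  exact h1.smul continuous_id

/-- Continuous families are constant, up to a small error, on the cells of a fine partition. -/
theorem step (hd : 1 ≤ d) {σ κ : ℝ} (hσ : 0 < σ) (hκ : 0 < κ) (b₀ : Fam d) {η : ℝ} (hη : 0 < η) :
    ∃ C : ℝ, 1 ≤ C ∧ ∀ N : ℝ, 1 ≤ N → ∃ b₁ : Fam d, dist b₁ b₀ ≤ η ∧ ∀ b : Fam d,
      dist b b₁ ≤ 1 / (2 * N) → ∀ (ι : Type) [Fintype ι] (ω : ι → Vec d)
      (f : ι → Fin d → Space d), Caps σ κ N ω f → ∀ p : ℝ, 1 ≤ p →
        FF p N ω f (pos N b ω) ≤ ENNReal.ofReal C ^ p * FF p N ω f 0 := by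
  classical
  -- extension
  set g : Vec d → Space d := fun v => b₀ ⟨pr v, pr_mem v⟩ with hg
  have hgc : Continuous g := by
    rw [hg]
    exact b₀.continuous.comp (pr_cont.subtype_mk _)
  have huc : UniformContinuousOn g (closedBall (0 : Vec d) 2) :=
    (isCompact_closedBall (0 : Vec d) 2).uniformContinuousOn_of_continuous hgc.continuousOn
  rw [Metric.uniformContinuousOn_iff] at huc
  obtain ⟨δ, hδ, huc⟩ := huc η hη
  set ρ : ℝ := min (δ / 2) 1 / (d + 1) with hρ
  have hρ0 : 0 < ρ := by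
    rw [hρ]
    have : 0 < min (δ / 2) 1 := lt_min (by linarith) one_pos
    positivity
  have hρd : ρ * (d + 1) = min (δ / 2) 1 := by rw [hρ]; field_simp
  set 𝒦 : Finset (Fin d → ℤ) := Finset.Icc (fun _ => -(⌈1 / ρ⌉ + 1)) (fun _ => ⌈1 / ρ⌉ + 1) with h𝒦
  set J : ℕ := 𝒦.card with hJ
  set CJ : ℝ := d * (2 * (1 / ρ) + 5) * (4 * (d + 1) / σ + 5) ^ (d - 1) with hCJ
  have hCJ0 : 0 ≤ CJ := by positivity
  set B : ℝ := max 1 (2 ^ (d + 1) / wv d) with hB
  have hB1 : 1 ≤ B := le_max_left _ _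
  have hwv := wv_pos d
  set C₁ : ℝ := max 1 (CJ / κ * B) with hC₁
  have hC₁1 : 1 ≤ C₁ := le_max_left _ _
  set C : ℝ := 2 * (J * 2 ^ (d + 1) + C₁) with hC
  have hC1 : 1 ≤ C := by
    have : (0 : ℝ) ≤ J * 2 ^ (d + 1) := by positivity
    linarith
  refine ⟨C, hC1, fun N hN => ?_⟩
  have hN0 : 0 < N := by linarith
  set w : ℝ := min 1 (1 / (2 * (d + 1) * N / σ * ρ)) with hw
  have hDρ : 0 < 2 * (d + 1) * N / σ * ρ := by positivity
  have hw0 : 0 < w := lt_min one_pos (by positivity)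
  have hw1 : w ≤ 1 := min_le_left _ _
  have hwD : w * (2 * (d + 1) * N / σ) * ρ ≤ 1 := by
    calc w * (2 * (d + 1) * N / σ) * ρ = w * (2 * (d + 1) * N / σ * ρ) := by ring
      _ ≤ 1 / (2 * (d + 1) * N / σ * ρ) * (2 * (d + 1) * N / σ * ρ) := by
          gcongr
          exact min_le_right _ _
      _ = 1 := by field_simp
  set b₁ : Fam d := ⟨fun v => g (st ρ w v.1), hgc.comp ((st_cont hw0 hw1).comp
    continuous_subtype_val)⟩ with hb₁
  refine ⟨b₁, ?_, ?_⟩
  · rw [ContinuousMap.dist_le hη.le]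
    rintro ⟨v, hv⟩
    have hv1 : ‖v‖ ≤ 1 := by simpa using hv
    have e1 : b₁ ⟨v, hv⟩ = g (st ρ w v) := rfl
    have e2 : b₀ ⟨v, hv⟩ = g v := by
      rw [hg]
      simp only
      congr 1
      exact Subtype.ext (pr_of_mem hv1).symm
    rw [e1, e2]
    have h1 := st_near hρ0 hw0 hw1 v
    rw [hρd] at h1
    refine (huc _ ?_ _ ?_ ?_).le
    · rw [mem_closedBall_zero_iff]
      have h2 : ‖st ρ w v‖ ≤ ‖st ρ w v - v‖ + ‖v‖ := by
        calc ‖st ρ w v‖ = ‖(st ρ w v - v) + v‖ := by congr 1; abel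
          _ ≤ _ := norm_add_le _ _
      have h3 : min (δ / 2) 1 ≤ 1 := min_le_right _ _
      linarith
    · rw [mem_closedBall_zero_iff]
      linarith
    · rw [dist_eq_norm]
      have h3 : min (δ / 2) 1 ≤ δ / 2 := min_le_left _ _
      linarith
  · intro b hb ι _ ω f hcaps p hp
    have hp0 : 0 < p := by linarith
    obtain ⟨hω, hsep, hcard, hf⟩ := hcaps
    set Sw : Finset ι := Finset.univ.filter (fun i => Wall ρ w (ω i)) with hSw
    set Sn : Finset ι := Finset.univ.filter (fun i => ¬ Wall ρ w (ω i)) with hSn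
    set cell : ι → Fin d → ℤ := fun i j => ⌊ω i j / ρ⌋ with hcell
    have hcellK : ∀ i ∈ Sn, cell i ∈ 𝒦 := by
      intro i _
      rw [h𝒦, Finset.mem_Icc]
      have h1 : ∀ j, -(⌈1 / ρ⌉ + 1) ≤ ⌊ω i j / ρ⌋ ∧ ⌊ω i j / ρ⌋ ≤ ⌈1 / ρ⌉ + 1 := by
        intro j
        have h2 := abs_le.1 ((abs_coord_le (ω i) j).trans (hω i))
        have h3 := Int.le_ceil (1 / ρ)
        have h4 : -(1 / ρ) ≤ ω i j / ρ := by
          rw [← neg_div]
          gcongr
          exact h2.1
        have h5 : ω i j / ρ ≤ 1 / ρ := by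
          gcongr
          exact h2.2
        constructor
        · apply Int.le_floor.2
          push_cast
          linarith
        · have h6 : (⌊ω i j / ρ⌋ : ℝ) ≤ ⌈1 / ρ⌉ := (Int.floor_le _).trans (by linarith)
          have h7 : ⌊ω i j / ρ⌋ ≤ ⌈1 / ρ⌉ := by exact_mod_cast h6
          omega
      exact ⟨fun j => (h1 j).1, fun j => (h1 j).2⟩
    -- the clusters
    have hnear : ∀ i ∈ Sn, ‖pos N b ω i - N ^ 2 • g (corner ρ (cell i))‖ ≤ N / 2 := by
      intro i hi
      have hnw := (Finset.mem_filter.1 hi).2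
      have hmem : ω i ∈ closedBall (0 : Vec d) 1 := by simpa using hω i
      have e1 : ex b₁ (ω i) = g (corner ρ (cell i)) := by
        rw [ex_of_mem hmem]
        show g (st ρ w (ω i)) = _
        rw [st_of_not_wall hw0 hnw]
      rw [← e1, pos, ← smul_sub, norm_smul, Real.norm_of_nonneg (by positivity), ← dist_eq_norm]
      calc N ^ 2 * dist (ex b (ω i)) (ex b₁ (ω i)) ≤ N ^ 2 * (1 / (2 * N)) := by
            gcongr
            exact (dist_ex_le b b₁ _).trans hb
        _ = N / 2 := by field_simp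
    have hclu : ∀ k ∈ 𝒦, ∫⁻ y, (∑ i ∈ Sn.filter (fun i => cell i = k),
        ib N ω f i (pos N b ω i) y) ^ p ≤ 2 ^ (d + 1) * FF p N ω f 0 := by
      intro k _
      apply cluster hp0 hN hf _ _ (N ^ 2 • g (corner ρ k))
      intro i hi
      rw [Finset.mem_filter] at hi
      have := hnear i hi.1
      rw [hi.2] at this
      exact this
    have hN1 : ∫⁻ y, (∑ i ∈ Sn, ib N ω f i (pos N b ω i) y) ^ p ≤
        ENNReal.ofReal (J * 2 ^ (d + 1)) ^ p * FF p N ω f 0 := by
      have e1 : ∀ y, ∑ i ∈ Sn, ib N ω f i (pos N b ω i) y = ∑ k ∈ 𝒦,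
          ∑ i ∈ Sn.filter (fun i => cell i = k), ib N ω f i (pos N b ω i) y := fun y =>
        (Finset.sum_fiberwise_of_maps_to hcellK (fun i => ib N ω f i (pos N b ω i) y)).symm
      calc ∫⁻ y, (∑ i ∈ Sn, ib N ω f i (pos N b ω i) y) ^ p
          ≤ ∫⁻ y, (J : ℝ≥0∞) ^ (p - 1) * ∑ k ∈ 𝒦,
              (∑ i ∈ Sn.filter (fun i => cell i = k), ib N ω f i (pos N b ω i) y) ^ p := by
            refine lintegral_mono fun y => ?_
            simp only
            rw [e1 y]
            exact ENNReal.rpow_sum_le_const_mul_sum_rpow 𝒦 _ hp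
        _ = (J : ℝ≥0∞) ^ (p - 1) * ∑ k ∈ 𝒦, ∫⁻ y,
              (∑ i ∈ Sn.filter (fun i => cell i = k), ib N ω f i (pos N b ω i) y) ^ p := by
            rw [lintegral_const_mul' _ _ (ENNReal.rpow_ne_top_of_nonneg (by linarith)
              (ENNReal.natCast_ne_top _)), lintegral_finsetSum _ (fun k _ =>
              (Finset.measurable_fun_sum _ fun i _ => ib_meas N ω f i _).pow_const _)]
        _ ≤ (J : ℝ≥0∞) ^ (p - 1) * ∑ _k ∈ 𝒦, 2 ^ (d + 1) * FF p N ω f 0 := by
            gcongr with k hk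
            exact hclu k hk
        _ = ((J : ℝ≥0∞) ^ p * 2 ^ (d + 1)) * FF p N ω f 0 := by
            rw [Finset.sum_const, nsmul_eq_mul, ← mul_assoc, ← mul_assoc]
            congr 2
            rcases Nat.eq_zero_or_pos J with h0 | h0
            · rw [← hJ, h0]
              simp only [Nat.cast_zero, mul_zero]
              rw [ENNReal.zero_rpow_of_pos hp0]
            · have hc0 : (J : ℝ≥0∞) ≠ 0 := by exact_mod_cast h0.ne'
              rw [← hJ]
              conv_rhs => rw [show p = (p - 1) + 1 by ring]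
              rw [ENNReal.rpow_add _ _ hc0 (ENNReal.natCast_ne_top _), ENNReal.rpow_one]
        _ ≤ ENNReal.ofReal (J * 2 ^ (d + 1)) ^ p * FF p N ω f 0 := by
            gcongr
            rw [ENNReal.ofReal_mul (by positivity), ENNReal.mul_rpow_of_nonneg _ _ hp0.le,
              ENNReal.ofReal_natCast]
            gcongr
            rw [ENNReal.ofReal_pow (by norm_num)]
            have h2 : (1 : ℝ≥0∞) ≤ ENNReal.ofReal 2 ^ (d + 1) := by
              apply one_le_pow₀
              rw [← ENNReal.ofReal_one]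
              exact ENNReal.ofReal_le_ofReal (by norm_num)
            calc (2 : ℝ≥0∞) ^ (d + 1) = (ENNReal.ofReal 2 ^ (d + 1)) ^ (1 : ℝ) := by
                  rw [ENNReal.rpow_one]
                  norm_num
              _ ≤ (ENNReal.ofReal 2 ^ (d + 1)) ^ p := ENNReal.rpow_le_rpow_of_exponent_le h2 hp
    have hN2 : ∫⁻ y, (∑ i ∈ Sw, ib N ω f i (pos N b ω i) y) ^ p ≤
        ENNReal.ofReal C₁ ^ p * FF p N ω f 0 := by
      refine (few hp hN hf Sw _).trans ?_
      have hc0 : (0 : ℝ) < Fintype.card ι := lt_of_lt_of_le (by positivity) hcard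
      have hwc := wall_card hρ0 hσ hN hw0 hwD ω hω hsep Sw
        (fun i hi => (Finset.mem_filter.1 hi).2)
      have hwc2 : (Sw.card : ℝ) ≤ CJ * N ^ (d - 1) := by
        refine hwc.trans (le_of_eq ?_)
        rw [hCJ, mul_pow]
        ring
      have hwc3 : (Sw.card : ℝ) * N ≤ CJ / κ * Fintype.card ι := by
        calc (Sw.card : ℝ) * N ≤ CJ * N ^ (d - 1) * N := by gcongr
          _ = CJ * N ^ d := by
              rw [mul_assoc, ← pow_succ, Nat.sub_add_cancel hd]
          _ = CJ / κ * (κ * N ^ d) := by field_simp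
          _ ≤ CJ / κ * Fintype.card ι := by gcongr
      have hreal : (Sw.card : ℝ) ^ p * N ^ (d + 2) ≤
          C₁ ^ p * ((Fintype.card ι : ℝ) ^ p * ((N / 2) ^ (d + 1) * wv d)) := by
        have hNp : N ≤ N ^ p := by
          calc N = N ^ (1 : ℝ) := (Real.rpow_one N).symm
            _ ≤ N ^ p := Real.rpow_le_rpow_of_exponent_le hN hp
        have h1 : (Sw.card : ℝ) ^ p * N ≤ (CJ / κ) ^ p * (Fintype.card ι : ℝ) ^ p := by
          calc (Sw.card : ℝ) ^ p * N ≤ (Sw.card : ℝ) ^ p * N ^ p := by gcongr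
            _ = ((Sw.card : ℝ) * N) ^ p := by
                rw [Real.mul_rpow (by positivity) (by positivity)]
            _ ≤ (CJ / κ * Fintype.card ι) ^ p := by
                apply Real.rpow_le_rpow (by positivity) hwc3 hp0.le
            _ = _ := by rw [Real.mul_rpow (by positivity) (by positivity)]
        have h2 : 1 ≤ B ^ p * wv d / 2 ^ (d + 1) := by
          have h3 : B ≤ B ^ p := by
            calc B = B ^ (1 : ℝ) := (Real.rpow_one B).symm
              _ ≤ B ^ p := Real.rpow_le_rpow_of_exponent_le hB1 hp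
          have h4 : 2 ^ (d + 1) / wv d ≤ B := le_max_right _ _
          rw [div_le_iff₀ hwv] at h4
          rw [le_div_iff₀ (by positivity), one_mul]
          calc (2 : ℝ) ^ (d + 1) ≤ B * wv d := h4
            _ ≤ B ^ p * wv d := by gcongr
        have h5 : (CJ / κ) ^ p * B ^ p ≤ C₁ ^ p := by
          rw [← Real.mul_rpow (by positivity) (by positivity)]
          exact Real.rpow_le_rpow (by positivity) (le_max_right _ _) hp0.le
        calc (Sw.card : ℝ) ^ p * N ^ (d + 2) = (Sw.card : ℝ) ^ p * N * N ^ (d + 1) := by ring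
          _ ≤ (CJ / κ) ^ p * (Fintype.card ι : ℝ) ^ p * N ^ (d + 1) := by gcongr
          _ ≤ (CJ / κ) ^ p * (Fintype.card ι : ℝ) ^ p * N ^ (d + 1) *
                (B ^ p * wv d / 2 ^ (d + 1)) := by
              exact le_mul_of_one_le_right (by positivity) h2
          _ = ((CJ / κ) ^ p * B ^ p) *
                ((Fintype.card ι : ℝ) ^ p * ((N / 2) ^ (d + 1) * wv d)) := by
              rw [div_pow]
              field_simp
          _ ≤ C₁ ^ p * ((Fintype.card ι : ℝ) ^ p * ((N / 2) ^ (d + 1) * wv d)) := by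
              gcongr
      calc ENNReal.ofReal ((Sw.card : ℝ) ^ p * N ^ (d + 2))
          ≤ ENNReal.ofReal (C₁ ^ p * ((Fintype.card ι : ℝ) ^ p * ((N / 2) ^ (d + 1) * wv d))) :=
            ENNReal.ofReal_le_ofReal hreal
        _ = ENNReal.ofReal C₁ ^ p *
              ENNReal.ofReal ((Fintype.card ι : ℝ) ^ p * ((N / 2) ^ (d + 1) * wv d)) := by
            rw [ENNReal.ofReal_mul (by positivity), ← ENNReal.ofReal_rpow_of_nonneg (by positivity)
              hp0.le]
        _ ≤ _ := by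
            gcongr
            exact centred_ge hp0 hN hf
    have hsplit : ∀ y, Fb N ω f (pos N b ω) y = ∑ i ∈ Sn, ib N ω f i (pos N b ω i) y +
        ∑ i ∈ Sw, ib N ω f i (pos N b ω i) y := by
      intro y
      have := Finset.sum_filter_add_sum_filter_not (Finset.univ : Finset ι)
        (fun i => Wall ρ w (ω i)) (fun i => ib N ω f i (pos N b ω i) y)
      rw [hSn, hSw, add_comm]
      exact this.symm
    calc FF p N ω f (pos N b ω)
        ≤ ∫⁻ y, 2 ^ (p - 1) * ((∑ i ∈ Sn, ib N ω f i (pos N b ω i) y) ^ p +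
            (∑ i ∈ Sw, ib N ω f i (pos N b ω i) y) ^ p) := by
          refine lintegral_mono fun y => ?_
          simp only
          rw [hsplit y]
          exact ENNReal.rpow_add_le_mul_rpow_add_rpow _ _ hp
      _ = 2 ^ (p - 1) * ((∫⁻ y, (∑ i ∈ Sn, ib N ω f i (pos N b ω i) y) ^ p) +
            (∫⁻ y, (∑ i ∈ Sw, ib N ω f i (pos N b ω i) y) ^ p)) := by
          rw [lintegral_const_mul' _ _ (ENNReal.rpow_ne_top_of_nonneg (by linarith)
            (by norm_num)), lintegral_add_left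
            ((Finset.measurable_fun_sum _ fun i _ => ib_meas N ω f i _).pow_const _)]
      _ ≤ 2 ^ p * (ENNReal.ofReal (J * 2 ^ (d + 1)) ^ p * FF p N ω f 0 +
            ENNReal.ofReal C₁ ^ p * FF p N ω f 0) := by
          gcongr
          · norm_num
          · linarith
      _ ≤ 2 ^ p * ((ENNReal.ofReal (J * 2 ^ (d + 1)) + ENNReal.ofReal C₁) ^ p * FF p N ω f 0) := by
          rw [← add_mul]
          gcongr
          exact ENNReal.add_rpow_le_rpow_add _ _ hp
      _ = ENNReal.ofReal C ^ p * FF p N ω f 0 := by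
          rw [← mul_assoc, ← ENNReal.mul_rpow_of_nonneg _ _ hp0.le,
            ← ENNReal.ofReal_add (by positivity) (by linarith)]
          congr 2
          rw [hC, ENNReal.ofReal_mul (by norm_num)]
          norm_num

end Pool.Agent.X91.TT
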