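import Pool.Agent.X91.TT.Disp2

set_option autoImplicit false

/-! The zero-one law. -/

open MeasureTheory Set Filter Topology ENNReal NNReal Metric

namespace Pool.Agent.X91.TT

open Pool.Agent.H810R3.Tub

variable {d : ℕ}

/-- The caps have centres `ω i` in the closed unit ball, `σ/N`-separated and at least `κ N^d` in
number, and `f i` is an orthonormal frame of the orthogonal complement of the normal at `ω i`. -/
def Caps {d : ℕ} {ι : Type} [Fintype ι] (σ κ N : ℝ) (ω : ι → Vec d) (f : ι → Fin d → Space d) :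
    Prop :=
  (∀ i, ‖ω i‖ ≤ 1) ∧ (∀ i j, i ≠ j → σ / N ≤ ‖ω i - ω j‖) ∧ κ * N ^ d ≤ (Fintype.card ι : ℝ) ∧
    ∀ i, Orthonormal ℝ (Fin.cons (nor (ω i)) (f i) : Fin (d + 1) → Space d)

/-- The sum of the indicators of the boxes of the caps with centres `a i`. -/
noncomputable def boxSum {d : ℕ} {ι : Type} [Fintype ι] (N : ℝ) (ω : ι → Vec d)
    (f : ι → Fin d → Space d) (a : ι → Space d) (y : Space d) : ℝ :=
  ∑ i, (box N (nor (ω i)) (f i) (a i)).indicator (fun _ => (1 : ℝ)) y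

/-- The inequality of Q1 with the constant `C` at the exponent `p`, for the boxes with centres
`a i`. -/
def Ineq {d : ℕ} {ι : Type} [Fintype ι] (C N : ℝ) (p : ℝ≥0∞) (ω : ι → Vec d)
    (f : ι → Fin d → Space d) (a : ι → Space d) : Prop :=
  eLpNorm (boxSum N ω f a) p volume ≤ ENNReal.ofReal C * eLpNorm (boxSum N ω f 0) p volume

theorem eLp_boxSum {ι : Type} [Fintype ι] {p N : ℝ} (hp : 1 ≤ p) (ω : ι → Vec d)
    (f : ι → Fin d → Space d) (a : ι → Space d) :
    eLpNorm (boxSum N ω f a) (ENNReal.ofReal p) volume = (FF p N ω f a) ^ (1 / p) := by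
  have hp0 : 0 < p := by linarith
  rw [eLpNorm_eq_lintegral_rpow_enorm_toReal (ENNReal.ofReal_pos.2 hp0).ne' ENNReal.ofReal_ne_top,
    ENNReal.toReal_ofReal hp0.le]
  congr 1
  unfold FF
  refine lintegral_congr fun y => ?_
  congr 1
  exact enorm_sum_box N ω f a y

theorem ineq_iff {ι : Type} [Fintype ι] {p N C : ℝ} (hp : 1 ≤ p) (ω : ι → Vec d)
    (f : ι → Fin d → Space d) (a : ι → Space d) :
    Ineq C N (ENNReal.ofReal p) ω f a ↔
      FF p N ω f a ≤ ENNReal.ofReal C ^ p * FF p N ω f 0 := by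
  have hp0 : 0 < p := by linarith
  unfold Ineq
  rw [eLp_boxSum hp, eLp_boxSum hp]
  have e : ENNReal.ofReal C * FF p N ω f 0 ^ (1 / p) =
      (ENNReal.ofReal C ^ p * FF p N ω f 0) ^ (1 / p) := by
    rw [ENNReal.mul_rpow_of_nonneg _ _ (by positivity), ← ENNReal.rpow_mul,
      mul_one_div_cancel hp0.ne', ENNReal.rpow_one]
  rw [e, ENNReal.rpow_le_rpow_iff (by positivity)]

/-- The inequality for all centres, with one constant. -/
def Uniform (d : ℕ) (σ κ : ℝ) (Φ : ℝ → ℝ) (P : Set ℝ) : Prop :=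
  ∃ C : ℝ, 0 < C ∧ ∀ N : ℝ, 1 ≤ N → ∀ (ι : Type) [Fintype ι] (ω : ι → Vec d)
    (f : ι → Fin d → Space d), Caps σ κ N ω f → ∀ (a : ι → Space d), ∀ p ∈ P,
      Ineq (C * Φ N) N (ENNReal.ofReal p) ω f a

/-- The inequality for the centres `N² b(ω i)`. -/
def BoundFor {d : ℕ} (σ κ : ℝ) (Φ : ℝ → ℝ) (P : Set ℝ) (b : Fam d) : Prop :=
  ∃ C : ℝ, 0 < C ∧ ∀ N : ℝ, 1 ≤ N → ∀ (ι : Type) [Fintype ι] (ω : ι → Vec d)
    (f : ι → Fin d → Space d), Caps σ κ N ω f → ∀ p ∈ P,
      Ineq (C * Φ N) N (ENNReal.ofReal p) ω f (pos N b ω)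

/-- Continuous families with prescribed values at separated points. -/
theorem prescribe (b₀ : Fam d) {η s : ℝ} (hη : 0 ≤ η) (hs : 0 < s) {ι : Type} [Fintype ι]
    (ω : ι → Vec d) (hω : ∀ i, ‖ω i‖ ≤ 1) (hsep : ∀ i j, i ≠ j → s ≤ ‖ω i - ω j‖)
    (β : ι → Space d) (hβ : ∀ i, ‖β i - ex b₀ (ω i)‖ ≤ η) :
    ∃ b : Fam d, dist b b₀ ≤ η ∧ ∀ i, ex b (ω i) = β i := by
  classical
  set φ : ι → Vec d → ℝ := fun i v => max 0 (1 - 2 * ‖v - ω i‖ / s) with hφ
  have hφc : ∀ i, Continuous (φ i) := fun i => by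
    rw [hφ]
    fun_prop
  have hφ0 : ∀ i v, 0 ≤ φ i v := fun i v => le_max_left _ _
  have hφ1 : ∀ i v, φ i v ≤ 1 := fun i v => by
    rw [hφ]
    apply max_le zero_le_one
    have : 0 ≤ 2 * ‖v - ω i‖ / s := by positivity
    linarith
  have hφs : ∀ i, φ i (ω i) = 1 := fun i => by
    rw [hφ]
    simp
  have hφne : ∀ i v, φ i v ≠ 0 → ‖v - ω i‖ < s / 2 := by
    intro i v h
    by_contra hn
    push Not at hn
    apply h
    rw [hφ]
    apply max_eq_left
    have : 1 ≤ 2 * ‖v - ω i‖ / s := by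
      rw [le_div_iff₀ hs]
      linarith
    linarith
  have huniq : ∀ v i j, φ i v ≠ 0 → φ j v ≠ 0 → i = j := by
    intro v i j hi hj
    by_contra hne
    have h1 := hφne i v hi
    have h2 := hφne j v hj
    have h3 := hsep i j hne
    have h4 : ‖ω i - ω j‖ ≤ ‖v - ω i‖ + ‖v - ω j‖ := by
      have : ω i - ω j = (v - ω j) - (v - ω i) := by abel
      rw [this]
      refine (norm_sub_le _ _).trans ?_
      linarith
    linarith
  set u : Vec d → Space d := fun v => ∑ i, φ i v • (β i - ex b₀ (ω i)) with hu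
  have huc : Continuous u := by
    rw [hu]
    fun_prop
  have huv : ∀ v i, φ i v ≠ 0 → u v = φ i v • (β i - ex b₀ (ω i)) := by
    intro v i hi
    rw [hu]
    apply Finset.sum_eq_single_of_mem i (Finset.mem_univ i)
    intro j _ hji
    have : φ j v = 0 := by
      by_contra hj
      exact hji (huniq v j i hj hi)
    rw [this, zero_smul]
  have hub : ∀ v, ‖u v‖ ≤ η := by
    intro v
    by_cases h : ∃ i, φ i v ≠ 0
    · obtain ⟨i, hi⟩ := h
      rw [huv v i hi, norm_smul, Real.norm_of_nonneg (hφ0 i v)]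
      calc φ i v * ‖β i - ex b₀ (ω i)‖ ≤ 1 * η := by
            apply mul_le_mul (hφ1 i v) (hβ i) (norm_nonneg _) zero_le_one
        _ = η := one_mul η
    · push Not at h
      have : u v = 0 := by
        rw [hu]
        apply Finset.sum_eq_zero
        intro i _
        rw [h i, zero_smul]
      rw [this, norm_zero]
      exact hη
  set b : Fam d := ⟨fun v => b₀ v + u v.1, by fun_prop⟩ with hb
  refine ⟨b, ?_, ?_⟩
  · rw [ContinuousMap.dist_le hη]
    intro v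
    rw [dist_eq_norm]
    have : b v - b₀ v = u v.1 := by
      rw [hb]
      simp
    rw [this]
    exact hub _
  · intro i
    have hmem : ω i ∈ closedBall (0 : Vec d) 1 := by simpa using hω i
    rw [ex_of_mem hmem]
    have h1 : b ⟨ω i, hmem⟩ = b₀ ⟨ω i, hmem⟩ + u (ω i) := rfl
    rw [h1, huv (ω i) i (by rw [hφs]; exact one_ne_zero), hφs, one_smul, ex_of_mem hmem]
    abel

theorem norm_ex_le (b : Fam d) (v : Vec d) : ‖ex b v‖ ≤ ‖b‖ := by
  by_cases h : v ∈ closedBall (0 : Vec d) 1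
  · rw [ex_of_mem h]
    exact b.norm_coe_le_norm _
  · rw [ex, dif_neg h, norm_zero]
    exact norm_nonneg _

/-- **Zero-one law.** -/
theorem zero_one {σ κ : ℝ} (hσ : 0 < σ) {Φ : ℝ → ℝ} {P : Set ℝ}
    (hP : ∀ p ∈ P, 1 ≤ p) (hU : ¬ Uniform d σ κ Φ P) :
    ∀ᶠ b in residual (Fam d), ¬ BoundFor σ κ Φ P b := by
  set U : ℕ → Set (Fam d) := fun m => {b | ∃ N : ℝ, 1 ≤ N ∧ ∃ (ι : Type) (_ : Fintype ι)
    (ω : ι → Vec d) (f : ι → Fin d → Space d), Caps σ κ N ω f ∧ ∃ p ∈ P,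
      ENNReal.ofReal (((m : ℝ) + 1) * Φ N) ^ p * FF p N ω f 0 < FF p N ω f (pos N b ω)} with hUdef
  have hopen : ∀ m, IsOpen (U m) := by
    intro m
    rw [isOpen_iff_forall_mem_open]
    rintro b ⟨N, hN, ι, _, ω, f, hc, p, hp, hlt⟩
    refine ⟨{b | ENNReal.ofReal (((m : ℝ) + 1) * Φ N) ^ p * FF p N ω f 0 <
      FF p N ω f (pos N b ω)}, ?_, ?_, hlt⟩
    · intro b' hb'
      exact ⟨N, hN, ι, _, ω, f, hc, p, hp, hb'⟩
    · exact (isOpen_FF (by linarith [hP p hp]) ω f _).preimage (continuous_pos N ω)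
  have hdense : ∀ m, Dense (U m) := by
    intro m
    rw [Metric.dense_iff]
    intro b₀ ε hε
    obtain ⟨G, hG⟩ := displace (g := ex b₀) (norm_ex_le b₀) (half_pos hε)
    have hU' := hU
    unfold Uniform at hU'
    push Not at hU'
    obtain ⟨N, hN, ι, _, ω, f, hc, a, p, hp, hne⟩ := hU' (((G : ℝ) + 1) * ((m : ℝ) + 1))
      (by positivity)
    have hp1 := hP p hp
    have hp0 : 0 < p := by linarith
    have hN0 : 0 < N := by linarith
    rw [ineq_iff hp1, not_le] at hne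
    obtain ⟨β, hβ1, hβ2⟩ := hG N hN ι ω f hc.2.2.2 a
    obtain ⟨b, hb1, hb2⟩ := prescribe b₀ (half_pos hε).le (div_pos hσ hN0) ω hc.1 hc.2.1 β hβ1
    refine ⟨b, ?_, N, hN, ι, _, ω, f, hc, p, hp, ?_⟩
    · rw [mem_ball]
      exact hb1.trans_lt (half_lt_self hε)
    · have e1 : pos N b ω = fun i => N ^ 2 • β i := by
        funext i
        rw [pos, hb2 i]
      rw [e1]
      by_contra hcon
      push Not at hcon
      have h1 := hβ2 p hp1
      have h2 : FF p N ω f a ≤ ENNReal.ofReal ((((G : ℝ) + 1) * ((m : ℝ) + 1)) * Φ N) ^ p *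
          FF p N ω f 0 := by
        calc FF p N ω f a ≤ (G : ℝ≥0∞) ^ p * FF p N ω f (fun i => N ^ 2 • β i) := h1
          _ ≤ (G : ℝ≥0∞) ^ p * (ENNReal.ofReal (((m : ℝ) + 1) * Φ N) ^ p * FF p N ω f 0) := by
              gcongr
          _ = ((G : ℝ≥0∞) * ENNReal.ofReal (((m : ℝ) + 1) * Φ N)) ^ p * FF p N ω f 0 := by
              rw [ENNReal.mul_rpow_of_nonneg _ _ hp0.le, mul_assoc]
          _ ≤ (ENNReal.ofReal ((G : ℝ) + 1) * ENNReal.ofReal (((m : ℝ) + 1) * Φ N)) ^ p *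
                FF p N ω f 0 := by
              gcongr
              rw [← ENNReal.ofReal_natCast]
              exact ENNReal.ofReal_le_ofReal (by linarith)
          _ = _ := by
              rw [← ENNReal.ofReal_mul (by positivity), mul_assoc]
      exact absurd (h2.trans_lt hne) (lt_irrefl _)
  have hall : ∀ᶠ b in residual (Fam d), ∀ m, b ∈ U m := by
    rw [eventually_countable_forall]
    intro m
    exact residual_of_dense_open (hopen m) (hdense m)
  filter_upwards [hall] with b hb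
  rintro ⟨C, hC, h⟩
  obtain ⟨m, hm⟩ := exists_nat_ge C
  obtain ⟨N, hN, ι, _, ω, f, hc, p, hp, hlt⟩ := hb m
  have h1 := (ineq_iff (hP p hp) ω f (pos N b ω)).1 (h N hN ι ω f hc p hp)
  have hp0 : 0 ≤ p := by linarith [hP p hp]
  have h3 : ENNReal.ofReal (C * Φ N) ≤ ENNReal.ofReal (((m : ℝ) + 1) * Φ N) := by
    rcases le_total 0 (Φ N) with h0 | h0
    · apply ENNReal.ofReal_le_ofReal
      gcongr
      linarith
    · rw [ENNReal.ofReal_of_nonpos (mul_nonpos_of_nonneg_of_nonpos hC.le h0)]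
      exact zero_le
  have h2 : ENNReal.ofReal (C * Φ N) ^ p * FF p N ω f 0 ≤
      ENNReal.ofReal (((m : ℝ) + 1) * Φ N) ^ p * FF p N ω f 0 := by
    gcongr
  exact absurd (hlt.trans_le (h1.trans h2)) (lt_irrefl _)

instance baire (d : ℕ) : BaireSpace (Fam d) := by infer_instance

/-- **Law.** -/
theorem law {σ κ : ℝ} (hσ : 0 < σ) {Φ : ℝ → ℝ} {P : Set ℝ} (hP : ∀ p ∈ P, 1 ≤ p) :
    (Uniform d σ κ Φ P ↔ ∀ b : Fam d, BoundFor σ κ Φ P b) ∧
    (¬ Uniform d σ κ Φ P → ∀ᶠ b in residual (Fam d), ¬ BoundFor σ κ Φ P b) := by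
  refine ⟨⟨?_, ?_⟩, zero_one hσ hP⟩
  · rintro ⟨C, hC, h⟩ b
    exact ⟨C, hC, fun N hN ι _ ω f hc p hp => h N hN ι ω f hc _ p hp⟩
  · intro h
    by_contra hU
    obtain ⟨b, hb⟩ := (dense_of_mem_residual (zero_one hσ hP hU)).nonempty
    exact hb (h b)

end Pool.Agent.X91.TT
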