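import Pool.Agent.X91.TT.Law

set_option autoImplicit false

/-! Staircases, and the number of separated points close to the walls. -/

open MeasureTheory Set Filter Topology ENNReal NNReal Metric

namespace Pool.Agent.X91.TT

open Pool.Agent.H810R3.Tub
open Pool.Agent.X91.TK (norm_le_of_coord abs_coord_le)

variable {d : ℕ}

/-- The correction. -/
noncomputable def gg (w x : ℝ) : ℝ := x - max 0 (1 - (1 - x) / w)

/-- The staircase on the line: equal to `⌊u⌋` if the fractional part of `u` is at most `1 - w`. -/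
noncomputable def st1 (w u : ℝ) : ℝ := u - gg w (Int.fract u)

theorem gg_bounds {w x : ℝ} (hw : 0 < w) (hw1 : w ≤ 1) (hx0 : 0 ≤ x) (hx1 : x ≤ 1) :
    0 ≤ gg w x ∧ gg w x ≤ 1 := by
  unfold gg
  constructor
  · rw [sub_nonneg]
    apply max_le hx0
    have : 1 - x ≤ (1 - x) / w := by
      rw [le_div_iff₀ hw]
      nlinarith
    linarith
  · have : 0 ≤ max 0 (1 - (1 - x) / w) := le_max_left _ _
    linarith

theorem st1_near {w : ℝ} (hw : 0 < w) (hw1 : w ≤ 1) (u : ℝ) : |st1 w u - u| ≤ 1 := by
  obtain ⟨h1, h2⟩ := gg_bounds hw hw1 (Int.fract_nonneg u) (Int.fract_lt_one u).le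
  unfold st1
  rw [abs_le]
  constructor <;> linarith

theorem st1_floor {w : ℝ} (hw : 0 < w) {u : ℝ} (hu : Int.fract u ≤ 1 - w) : st1 w u = ⌊u⌋ := by
  unfold st1 gg
  have h1 : max 0 (1 - (1 - Int.fract u) / w) = 0 := by
    apply max_eq_left
    have : 1 ≤ (1 - Int.fract u) / w := by
      rw [le_div_iff₀ hw]
      linarith
    linarith
  rw [h1]
  have := Int.floor_add_fract u
  linarith

theorem st1_cont {w : ℝ} (hw : 0 < w) (hw1 : w ≤ 1) : Continuous (st1 w) := by
  unfold st1
  apply continuous_id.sub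
  have h1 : Continuous (gg w) := by
    unfold gg
    fun_prop
  have h2 : gg w 0 = gg w 1 := by
    unfold gg
    have : max 0 (1 - (1 - (0 : ℝ)) / w) = 0 := by
      apply max_eq_left
      have : 1 ≤ (1 - (0 : ℝ)) / w := by
        rw [le_div_iff₀ hw]
        linarith
      linarith
    rw [this]
    simp
  exact (h1.continuousOn (s := Icc (0 : ℝ) 1)).comp_fract'' h2

/-- The staircase. -/
noncomputable def st (ρ w : ℝ) (v : Vec d) : Vec d := WithLp.toLp 2 fun j => ρ * st1 w (v j / ρ)

theorem st_cont {ρ w : ℝ} (hw : 0 < w) (hw1 : w ≤ 1) : Continuous (st ρ w : Vec d → Vec d) := by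
  unfold st
  apply (PiLp.continuous_toLp 2 _).comp
  apply continuous_pi
  intro j
  apply continuous_const.mul
  exact (st1_cont hw hw1).comp (by fun_prop)

theorem st_near {ρ w : ℝ} (hρ : 0 < ρ) (hw : 0 < w) (hw1 : w ≤ 1) (v : Vec d) :
    ‖st ρ w v - v‖ ≤ ρ * (d + 1) := by
  apply norm_le_of_coord hρ.le
  intro j
  have h1 : (st ρ w v - v) j = ρ * (st1 w (v j / ρ) - v j / ρ) := by
    have : (st ρ w v - v) j = ρ * st1 w (v j / ρ) - v j := rfl
    rw [this, mul_sub, mul_div_cancel₀ _ hρ.ne']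
  rw [h1, abs_mul, abs_of_pos hρ]
  calc ρ * |st1 w (v j / ρ) - v j / ρ| ≤ ρ * 1 := by
        gcongr
        exact st1_near hw hw1 _
    _ = ρ := mul_one ρ

/-- The corner of the cell with index `k`. -/
noncomputable def corner (ρ : ℝ) (k : Fin d → ℤ) : Vec d := WithLp.toLp 2 fun j => ρ * (k j : ℝ)

/-- `v` is close to a wall. -/
def Wall (ρ w : ℝ) (v : Vec d) : Prop := ∃ j, 1 - w < Int.fract (v j / ρ)

theorem st_of_not_wall {ρ w : ℝ} (hw : 0 < w) {v : Vec d} (hv : ¬ Wall ρ w v) :
    st ρ w v = corner ρ (fun j => ⌊v j / ρ⌋) := by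
  unfold Wall at hv
  push Not at hv
  unfold st corner
  congr 1
  funext j
  rw [st1_floor hw (hv j)]

/-- The number of separated points which are close to a wall. -/
theorem wall_card {ρ σ N w : ℝ} (hρ : 0 < ρ) (hσ : 0 < σ) (hN : 1 ≤ N) (hw : 0 < w)
    (hw1 : w * (2 * (d + 1) * N / σ) * ρ ≤ 1) {ι : Type} [Fintype ι] (ω : ι → Vec d)
    (hω : ∀ i, ‖ω i‖ ≤ 1) (hsep : ∀ i j, i ≠ j → σ / N ≤ ‖ω i - ω j‖) (S : Finset ι)
    (hS : ∀ i ∈ S, Wall ρ w (ω i)) :
    (S.card : ℝ) ≤ d * (2 * (1 / ρ) + 5) * ((4 * (d + 1) / σ + 5) * N) ^ (d - 1) := by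
  classical
  have hN0 : 0 < N := by linarith
  set D : ℝ := 2 * (d + 1) * N / σ with hD
  have hD0 : 0 < D := by rw [hD]; positivity
  set M : ℤ := ⌈D⌉ + 1 with hM
  set R : ℤ := ⌈1 / ρ⌉ + 1 with hR
  have hM0 : 0 ≤ M := by
    have : 0 ≤ ⌈D⌉ := Int.ceil_nonneg hD0.le
    omega
  have hR0 : 0 ≤ R := by
    have : 0 ≤ ⌈1 / ρ⌉ := Int.ceil_nonneg (by positivity)
    omega
  -- the target
  set Tg : Fin d → Finset (ℤ × (Fin d → ℤ)) := fun j =>
    Finset.Icc (-R) R ×ˢ Fintype.piFinset (fun l => if l = j then {0} else Finset.Icc (-M) M)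
    with hTg
  have hTcard : ∀ j, ((Tg j).card : ℝ) ≤ (2 * (1 / ρ) + 5) * ((4 * (d + 1) / σ + 5) * N) ^ (d - 1) := by
    intro j
    have e1 : (Tg j).card = (2 * R + 1).toNat * (2 * M + 1).toNat ^ (d - 1) := by
      rw [hTg]
      simp only
      rw [Finset.card_product, Int.card_Icc, Fintype.card_piFinset]
      congr 1
      · congr 1; ring
      · rw [← Finset.mul_prod_erase Finset.univ _ (Finset.mem_univ j)]
        simp only [if_true, Finset.card_singleton, one_mul]
        rw [Finset.prod_congr rfl (g := fun _ => (2 * M + 1).toNat)]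
        · rw [Finset.prod_const, Finset.card_erase_of_mem (Finset.mem_univ j), Finset.card_univ,
            Fintype.card_fin]
        · intro l hl
          rw [if_neg (Finset.ne_of_mem_erase hl), Int.card_Icc]
          congr 1
          ring
    rw [e1]
    push_cast
    have e2 : (((2 * R + 1).toNat : ℕ) : ℝ) ≤ 2 * (1 / ρ) + 5 := by
      have h1 : (((2 * R + 1).toNat : ℕ) : ℤ) = 2 * R + 1 := Int.toNat_of_nonneg (by omega)
      have h2 : (((2 * R + 1).toNat : ℕ) : ℝ) = 2 * (R : ℝ) + 1 := by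
        have : (((2 * R + 1).toNat : ℕ) : ℝ) = (((2 * R + 1).toNat : ℤ) : ℝ) := by push_cast; rfl
        rw [this, h1]; push_cast; ring
      rw [h2, hR]
      push_cast
      have := Int.ceil_lt_add_one (1 / ρ)
      linarith
    have e3 : (((2 * M + 1).toNat : ℕ) : ℝ) ≤ (4 * (d + 1) / σ + 5) * N := by
      have h1 : (((2 * M + 1).toNat : ℕ) : ℤ) = 2 * M + 1 := Int.toNat_of_nonneg (by omega)
      have h2 : (((2 * M + 1).toNat : ℕ) : ℝ) = 2 * (M : ℝ) + 1 := by
        have : (((2 * M + 1).toNat : ℕ) : ℝ) = (((2 * M + 1).toNat : ℤ) : ℝ) := by push_cast; rfl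
        rw [this, h1]; push_cast; ring
      rw [h2, hM]
      push_cast
      have := Int.ceil_lt_add_one D
      have h3 : (4 * (d + 1) / σ + 5) * N = 2 * D + 5 * N := by rw [hD]; ring
      rw [h3]
      linarith
    gcongr
  set Sj : Fin d → Finset ι := fun j => S.filter (fun i => 1 - w < Int.fract (ω i j / ρ)) with hSj
  have hsub : S ⊆ Finset.univ.biUnion Sj := by
    intro i hi
    obtain ⟨j, hj⟩ := hS i hi
    rw [Finset.mem_biUnion]
    exact ⟨j, Finset.mem_univ j, Finset.mem_filter.2 ⟨hi, hj⟩⟩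
  have habs : ∀ i l, |ω i l| ≤ 1 := fun i l => (abs_coord_le _ l).trans (hω i)
  have hfloor : ∀ (c : ℝ), 0 < c → ∀ i l, -(⌈c⌉ + 1) ≤ ⌊c * ω i l⌋ ∧ ⌊c * ω i l⌋ ≤ ⌈c⌉ + 1 := by
    intro c hc i l
    have h1 := abs_le.1 (habs i l)
    have h2 := Int.le_ceil c
    constructor
    · apply Int.le_floor.2
      push_cast
      nlinarith
    · have h3 : (⌊c * ω i l⌋ : ℝ) ≤ ⌈c⌉ := (Int.floor_le _).trans (by nlinarith)
      have h4 : ⌊c * ω i l⌋ ≤ ⌈c⌉ := by exact_mod_cast h3
      omega
  have hcardj : ∀ j, (Sj j).card ≤ (Tg j).card := by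
    intro j
    apply Finset.card_le_card_of_injOn
      (fun i => (⌊ω i j / ρ⌋, fun l => if l = j then 0 else ⌊D * ω i l⌋))
    · intro i hi
      rw [Finset.mem_coe, hTg]
      simp only
      rw [Finset.mem_product, Finset.mem_Icc, Fintype.mem_piFinset]
      refine ⟨?_, ?_⟩
      · have h1 := hfloor (1 / ρ) (by positivity) i j
        have h2 : 1 / ρ * ω i j = ω i j / ρ := by ring
        rw [h2] at h1
        exact h1
      · intro l
        by_cases hl : l = j
        · simp [hl]
        · simp only [if_neg hl]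
          rw [Finset.mem_Icc]
          exact hfloor D hD0 i l
    · intro i hi i' hi' heq
      by_contra hne
      have h0 := hsep i i' hne
      rw [Finset.mem_coe, hSj, Finset.mem_filter] at hi hi'
      rw [Prod.mk.injEq] at heq
      obtain ⟨hq1, hq2⟩ := heq
      have hc : ‖ω i - ω i'‖ ≤ (1 / D) * (d + 1) := by
        apply norm_le_of_coord (by positivity)
        intro l
        have e0 : (ω i - ω i') l = ω i l - ω i' l := rfl
        rw [e0]
        by_cases hl : l = j
        · subst hl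
          have f1 := Int.floor_add_fract (ω i l / ρ)
          have f2 := Int.floor_add_fract (ω i' l / ρ)
          have f3 := Int.fract_lt_one (ω i l / ρ)
          have f4 := Int.fract_lt_one (ω i' l / ρ)
          have f5 : (⌊ω i l / ρ⌋ : ℝ) = ⌊ω i' l / ρ⌋ := by exact_mod_cast hq1
          have f6 : |ω i l / ρ - ω i' l / ρ| ≤ w := by
            rw [abs_le]
            constructor <;> linarith [hi.2, hi'.2]
          have f7 : ω i l - ω i' l = ρ * (ω i l / ρ - ω i' l / ρ) := by
            field_simp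
          rw [f7, abs_mul, abs_of_pos hρ]
          calc ρ * |ω i l / ρ - ω i' l / ρ| ≤ ρ * w := by gcongr
            _ ≤ 1 / D := by
                rw [le_div_iff₀ hD0]
                calc ρ * w * D = w * D * ρ := by ring
                  _ ≤ 1 := hw1
        · have g1 := congrFun hq2 l
          simp only [if_neg hl] at g1
          have f1 := Int.floor_le (D * ω i l)
          have f2 := Int.lt_floor_add_one (D * ω i l)
          have f3 := Int.floor_le (D * ω i' l)
          have f4 := Int.lt_floor_add_one (D * ω i' l)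
          have f5 : (⌊D * ω i l⌋ : ℝ) = ⌊D * ω i' l⌋ := by exact_mod_cast g1
          have f6 : |D * (ω i l - ω i' l)| ≤ 1 := by
            rw [abs_le]
            constructor <;> linarith
          rw [abs_mul, abs_of_pos hD0] at f6
          rw [le_div_iff₀ hD0]
          linarith
      have hlt : (1 / D) * (d + 1) < σ / N := by
        have : (1 / D) * (d + 1) = σ / N / 2 := by
          rw [hD]
          field_simp
        rw [this]
        have : 0 < σ / N := by positivity
        linarith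
      linarith
  calc (S.card : ℝ) ≤ ((Finset.univ.biUnion Sj).card : ℝ) := by
        exact_mod_cast Finset.card_le_card hsub
    _ ≤ ∑ j, ((Sj j).card : ℝ) := by exact_mod_cast Finset.card_biUnion_le
    _ ≤ ∑ _j : Fin d, (2 * (1 / ρ) + 5) * ((4 * (d + 1) / σ + 5) * N) ^ (d - 1) := by
        apply Finset.sum_le_sum
        intro j _
        refine le_trans ?_ (hTcard j)
        exact_mod_cast hcardj j
    _ = _ := by
        rw [Finset.sum_const, Finset.card_univ, Fintype.card_fin, nsmul_eq_mul, mul_assoc]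

end Pool.Agent.X91.TT
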